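import Mathlib

set_option autoImplicit false

namespace Pool.Agent.Helper9.Champ

/-- the first blocks of the Champernowne word as a list of binary digits -/
def cl (b : ℕ) : List ℕ := (List.range b).flatMap fun m => (Nat.digits 2 (m + 1)).reverse

/-- `i`-th digit (counting from `0`) of the Champernowne word -/
def cdigit (i : ℕ) : ℕ := (cl (i + 1)).getD i 0

/-- the binary Champernowne constant -/
noncomputable def champ : ℝ := ∑' i : ℕ, (cdigit i : ℝ) / 2 ^ (i + 1)

theorem cl_succ (b : ℕ) : cl (b + 1) = cl b ++ (Nat.digits 2 (b + 1)).reverse := by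
  simp [cl, List.range_succ]

theorem digits_length (c : ℕ) : (Nat.digits 2 c).length = Nat.size c := by
  rw [Nat.digits_two_eq_bits, List.length_map, Nat.size_eq_bits_len]

/-- number of digits written after the block of `b` -/
def Q (b : ℕ) : ℕ := (cl b).length

theorem Q_zero : Q 0 = 0 := by simp [Q, cl]

theorem Q_succ (b : ℕ) : Q (b + 1) = Q b + Nat.size (b + 1) := by
  unfold Q
  rw [cl_succ, List.length_append, List.length_reverse, digits_length]

theorem size_pos (c : ℕ) (h : 0 < c) : 0 < Nat.size c := Nat.size_pos.mpr h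

theorem le_Q (b : ℕ) : b ≤ Q b := by
  induction b with
  | zero => simp
  | succ n ih =>
    rw [Q_succ]
    have := size_pos (n + 1) (Nat.succ_pos n)
    omega

theorem Q_mono : Monotone Q := monotone_nat_of_le_succ fun n => by rw [Q_succ]; omega

theorem cl_getD_of_le (b b' i : ℕ) (h : b ≤ b') (hi : i < Q b) :
    (cl b').getD i 0 = (cl b).getD i 0 := by
  induction b', h using Nat.le_induction with
  | base => rfl
  | succ n hn ih =>
    rw [cl_succ, List.getD_append _ _ _ _ (lt_of_lt_of_le hi (Q_mono hn)), ih]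

theorem cdigit_eq (b i : ℕ) (hi : i < Q b) : cdigit i = (cl b).getD i 0 := by
  unfold cdigit
  rcases le_total b (i + 1) with h | h
  · exact cl_getD_of_le _ _ _ h hi
  · exact (cl_getD_of_le _ _ _ h (lt_of_lt_of_le (Nat.lt_succ_self i) (le_Q (i + 1)))).symm

theorem cdigit_block (b t : ℕ) (ht : t < Nat.size (b + 1)) :
    cdigit (Q b + t) = (b + 1) / 2 ^ (Nat.size (b + 1) - 1 - t) % 2 := by
  have h1 : Q b + t < Q (b + 1) := by rw [Q_succ]; omega
  rw [cdigit_eq (b + 1) _ h1, cl_succ, List.getD_append_right _ _ _ _ (by simp [Q])]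
  have h2 : Q b + t - (cl b).length = t := by simp [Q]
  rw [h2]
  have h3 : t < (Nat.digits 2 (b + 1)).length := by rw [digits_length]; exact ht
  rw [List.getD_reverse t h3, digits_length, Nat.getD_digits _ _ (le_refl 2)]

theorem cdigit_le_one (i : ℕ) : cdigit i ≤ 1 := by
  unfold cdigit
  by_cases h : i < (cl (i + 1)).length
  · rw [List.getD_eq_getElem _ _ h]
    have hm := List.getElem_mem h
    unfold cl at hm
    rw [List.mem_flatMap] at hm
    obtain ⟨m, _, hm⟩ := hm
    rw [List.mem_reverse] at hm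
    have := Nat.digits_lt_base (by norm_num) hm
    unfold cl
    omega
  · rw [List.getD_eq_default _ _ (by omega)]
    omega

/-- the integer whose binary expansion is the first `e` digits -/
def D : ℕ → ℕ
  | 0 => 0
  | (e + 1) => 2 * D e + cdigit e

theorem div_pow_succ (n j : ℕ) : n / 2 ^ j = 2 * (n / 2 ^ (j + 1)) + n / 2 ^ j % 2 := by
  rw [pow_succ, ← Nat.div_div_eq_div_mul]
  omega

theorem D_block (b t : ℕ) (ht : t ≤ Nat.size (b + 1)) :
    D (Q b + t) = D (Q b) * 2 ^ t + (b + 1) / 2 ^ (Nat.size (b + 1) - t) := by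
  induction t with
  | zero =>
    simp only [add_zero, pow_zero, mul_one, Nat.sub_zero]
    rw [Nat.div_eq_of_lt (Nat.lt_size_self (b + 1))]
    rfl
  | succ n ih =>
    have hn := ih (by omega)
    have h1 : D (Q b + (n + 1)) = 2 * D (Q b + n) + cdigit (Q b + n) := rfl
    rw [h1, hn, cdigit_block b n (by omega)]
    have h2 := div_pow_succ (b + 1) (Nat.size (b + 1) - 1 - n)
    have h3 : Nat.size (b + 1) - 1 - n + 1 = Nat.size (b + 1) - n := by omega
    have h4 : Nat.size (b + 1) - (n + 1) = Nat.size (b + 1) - 1 - n := by omega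
    rw [h3] at h2
    rw [h4, h2, pow_succ]
    ring_nf
    omega

theorem D_Q_succ (b : ℕ) : D (Q (b + 1)) = D (Q b) * 2 ^ Nat.size (b + 1) + (b + 1) := by
  rw [Q_succ, D_block b _ le_rfl]
  simp

end Pool.Agent.Helper9.Champ
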