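import Mathlib
import Pool.Agent.Helper9.Champ1

set_option autoImplicit false

namespace Pool.Agent.Helper9.Champ

open Finset

theorem div_lt_pow (b t : ℕ) (ht : t ≤ Nat.size (b + 1)) :
    (b + 1) / 2 ^ (Nat.size (b + 1) - t) < 2 ^ t := by
  apply Nat.div_lt_of_lt_mul
  rw [← pow_add, Nat.sub_add_cancel ht]
  exact Nat.lt_size_self (b + 1)

theorem W_inside (b t r : ℕ) (ht : t ≤ Nat.size (b + 1)) (hr : r ≤ t) :
    D (Q b + t) % 2 ^ r = (b + 1) / 2 ^ (Nat.size (b + 1) - t) % 2 ^ r := by
  rw [D_block b t ht, Nat.add_mod, Nat.mod_eq_zero_of_dvd (Dvd.dvd.mul_left (pow_dvd_pow 2 hr) _)]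
  simp

theorem W_low (b t : ℕ) (ht : t ≤ Nat.size (b + 1)) :
    D (Q b + t) % 2 ^ t = (b + 1) / 2 ^ (Nat.size (b + 1) - t) := by
  rw [W_inside b t t ht le_rfl]
  exact Nat.mod_eq_of_lt (div_lt_pow b t ht)

theorem D_Q_mod (b j : ℕ) (hj : j + 1 ≤ Nat.size (b + 1)) :
    D (Q b) % 2 ^ j = b % 2 ^ j := by
  cases b with
  | zero => simp [Q_zero, D]
  | succ n =>
    have h1 : j ≤ Nat.size (n + 1) := by
      have h2 : 2 ^ j ≤ n + 1 + 1 := Nat.lt_size.mp (by omega)
      by_contra hcon
      push Not at hcon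
      have h3 : Nat.size (n + 1) ≤ j - 1 := by omega
      rw [Nat.size_le] at h3
      have h4 : 2 ^ j = 2 * 2 ^ (j - 1) := by
        rw [← pow_succ']
        congr 1
        omega
      have h5 : 0 < j := by omega
      rcases Nat.lt_or_ge 1 j with h6 | h6
      · have h7 : 2 ≤ 2 ^ (j - 1) := by
          calc 2 = 2 ^ 1 := by norm_num
            _ ≤ 2 ^ (j - 1) := Nat.pow_le_pow_right (by norm_num) (by omega)
        omega
      · have h8 : j = 1 := by omega
        subst h8
        have h9 := size_pos (n + 1) (Nat.succ_pos n)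
        omega
    rw [D_Q_succ, Nat.add_mod, Nat.mod_eq_zero_of_dvd (Dvd.dvd.mul_left (pow_dvd_pow 2 h1) _)]
    simp

theorem W_high (b t j : ℕ) (ht : t ≤ Nat.size (b + 1)) (hj : j + 1 ≤ Nat.size (b + 1)) :
    D (Q b + t) / 2 ^ t % 2 ^ j = b % 2 ^ j := by
  rw [D_block b t ht, ← D_Q_mod b j hj]
  congr 1
  rw [Nat.add_comm, Nat.add_mul_div_right _ _ (by positivity), Nat.div_eq_of_lt (div_lt_pow b t ht)]
  simp

/-- counting one residue class in an interval -/
theorem card_Ico_mod (x y P v : ℕ) (hP : 0 < P) :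
    (((Ico x y).filter fun c => c % P = v).card : ℝ) ≤ ((y - x : ℕ) : ℝ) / P + 1 := by
  have key : ∀ n x : ℕ, ((Ico x (x + n)).filter fun c => c % P = v).card ≤ n / P + 1 := by
    intro n
    induction n using Nat.strong_induction_on with
    | _ n ih =>
      intro x
      rcases Nat.lt_or_ge n P with h | h
      · have : ((Ico x (x + n)).filter fun c => c % P = v).card ≤ 1 := by
          rw [Finset.card_le_one]
          intro c hc d hd
          simp only [mem_filter, mem_Ico] at hc hd
          have h1 : c ≡ d [MOD P] := by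
            unfold Nat.ModEq
            omega
          rcases le_total c d with h2 | h2
          · have h3 := (Nat.modEq_iff_dvd' h2).mp h1
            have h4 := Nat.eq_zero_of_dvd_of_lt h3 (by omega)
            omega
          · have h3 := (Nat.modEq_iff_dvd' h2).mp h1.symm
            have h4 := Nat.eq_zero_of_dvd_of_lt h3 (by omega)
            omega
        exact this.trans (Nat.le_add_left _ _)
      · have h1 := ih (n - P) (by omega) (x + P)
        have h2 : Ico x (x + n) = Ico x (x + P) ∪ Ico (x + P) (x + P + (n - P)) := by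
          rw [Ico_union_Ico_eq_Ico (by omega) (by omega)]
          congr 1
          omega
        have h3 : n / P = (n - P) / P + 1 := by
          conv_lhs => rw [← Nat.sub_add_cancel h]
          rw [Nat.add_div_right _ hP]
        rw [h2, filter_union, h3]
        refine (card_union_le _ _).trans ?_
        have h4 : ((Ico x (x + P)).filter fun c => c % P = v).card ≤ 1 := by
          rw [Finset.card_le_one]
          intro c hc d hd
          simp only [mem_filter, mem_Ico] at hc hd
          have h1 : c ≡ d [MOD P] := by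
            unfold Nat.ModEq
            omega
          rcases le_total c d with h2 | h2
          · have h3 := (Nat.modEq_iff_dvd' h2).mp h1
            have h4 := Nat.eq_zero_of_dvd_of_lt h3 (by omega)
            omega
          · have h3 := (Nat.modEq_iff_dvd' h2).mp h1.symm
            have h4 := Nat.eq_zero_of_dvd_of_lt h3 (by omega)
            omega
        omega
  rcases le_total x y with h | h
  · have h1 := key (y - x) x
    rw [Nat.add_sub_cancel' h] at h1
    calc (((Ico x y).filter fun c => c % P = v).card : ℝ) ≤ (((y - x) / P + 1 : ℕ) : ℝ) := by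
          exact_mod_cast h1
      _ = (((y - x) / P : ℕ) : ℝ) + 1 := by push_cast; rfl
      _ ≤ ((y - x : ℕ) : ℝ) / P + 1 := by
          gcongr
          exact Nat.cast_div_le
  · rw [Ico_eq_empty (by omega)]
    simp only [filter_empty, card_empty, Nat.cast_zero]
    positivity

/-- numbers `b < a` such that `b + 1` has `κ` binary digits -/
def I (a κ : ℕ) : Finset ℕ := (range a).filter fun b => Nat.size (b + 1) = κ

theorem I_eq (a κ : ℕ) (hκ : 0 < κ) : I a κ = Ico (2 ^ (κ - 1) - 1) (min (2 ^ κ - 1) a) := by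
  ext b
  simp only [I, mem_filter, mem_range, mem_Ico, lt_min_iff]
  have h1 : Nat.size (b + 1) ≤ κ ↔ b + 1 < 2 ^ κ := Nat.size_le
  have h2 : κ - 1 < Nat.size (b + 1) ↔ 2 ^ (κ - 1) ≤ b + 1 := Nat.lt_size
  have h3 : 0 < 2 ^ (κ - 1) := by positivity
  constructor
  · rintro ⟨h4, h5⟩
    have h6 := h1.mp (by omega)
    have h7 := h2.mp (by omega)
    omega
  · rintro ⟨h4, h5, h6⟩
    have h8 := h1.mpr (by omega)
    have h9 := h2.mpr (by omega)
    omega

theorem card_I_le (a κ : ℕ) (hκ : 0 < κ) : (I a κ).card ≤ 2 ^ κ := by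
  rw [I_eq a κ hκ, Nat.card_Ico]
  have h : 0 < 2 ^ κ := by positivity
  omega

/-- count with a residue condition on `b` inside an interval -/
theorem card_I_mod (a κ P v : ℕ) (hκ : 0 < κ) (hP : 0 < P) :
    (((I a κ).filter fun b => b % P = v).card : ℝ) ≤ ((I a κ).card : ℝ) / P + 1 := by
  rw [I_eq a κ hκ, Nat.card_Ico]
  exact card_Ico_mod _ _ _ _ hP

theorem card_I_div_mod (a κ m j v : ℕ) (hκ : 0 < κ) :
    (((I a κ).filter fun b => (b + 1) / 2 ^ m % 2 ^ j = v).card : ℝ) ≤
      ((I a κ).card : ℝ) / 2 ^ j + 2 ^ m := by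
  have h1 : ((I a κ).filter fun b => (b + 1) / 2 ^ m % 2 ^ j = v) ⊆
      (range (2 ^ m)).biUnion fun ρ => (I a κ).filter fun b =>
        b % 2 ^ (m + j) = (v * 2 ^ m + ρ + (2 ^ (m + j) - 1)) % 2 ^ (m + j) := by
    intro b hb
    simp only [mem_filter] at hb
    simp only [mem_biUnion, mem_range, mem_filter]
    refine ⟨(b + 1) % 2 ^ m, Nat.mod_lt _ (by positivity), hb.1, ?_⟩
    have h2 : (b + 1) % 2 ^ (m + j) = v * 2 ^ m + (b + 1) % 2 ^ m := by
      rw [pow_add, Nat.mod_mul, hb.2]
      ring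
    rw [← h2]
    have h3 : 0 < 2 ^ (m + j) := by positivity
    have h4 : b + 2 ^ (m + j) = (b + 1) + (2 ^ (m + j) - 1) := by omega
    rw [← Nat.add_mod_right b, h4]
    simp [Nat.add_mod]
  have h2 := card_le_card h1
  have h3 : (((range (2 ^ m)).biUnion fun ρ => (I a κ).filter fun b =>
        b % 2 ^ (m + j) = (v * 2 ^ m + ρ + (2 ^ (m + j) - 1)) % 2 ^ (m + j)).card : ℝ) ≤
        ∑ ρ ∈ range (2 ^ m), (((I a κ).card : ℝ) / (2 ^ (m + j) : ℕ) + 1) := by
    calc _ ≤ ((∑ ρ ∈ range (2 ^ m), ((I a κ).filter fun b =>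
        b % 2 ^ (m + j) = (v * 2 ^ m + ρ + (2 ^ (m + j) - 1)) % 2 ^ (m + j)).card : ℕ) : ℝ) := by
          exact_mod_cast card_biUnion_le
      _ = ∑ ρ ∈ range (2 ^ m), (((I a κ).filter fun b =>
        b % 2 ^ (m + j) = (v * 2 ^ m + ρ + (2 ^ (m + j) - 1)) % 2 ^ (m + j)).card : ℝ) := by
          push_cast; rfl
      _ ≤ _ := by
          apply sum_le_sum
          intro ρ _
          exact card_I_mod a κ _ _ hκ (by positivity)
  calc (((I a κ).filter fun b => (b + 1) / 2 ^ m % 2 ^ j = v).card : ℝ) ≤ _ := by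
        exact_mod_cast h2
    _ ≤ _ := h3
    _ = _ := by
        rw [sum_const, card_range, nsmul_eq_mul]
        push_cast
        rw [pow_add]
        field_simp

theorem card_I_div_and_mod (a κ m j v u : ℕ) (hκ : 0 < κ) :
    (((I a κ).filter fun b => (b + 1) / 2 ^ m = v ∧ b % 2 ^ j = u).card : ℝ) ≤
      (((I a κ).filter fun b => (b + 1) / 2 ^ m = v).card : ℝ) / 2 ^ j + 1 := by
  have h1 : ((I a κ).filter fun b => (b + 1) / 2 ^ m = v) =
      Ico (max (2 ^ (κ - 1) - 1) (v * 2 ^ m - 1)) (min (min (2 ^ κ - 1) a) ((v + 1) * 2 ^ m - 1)) := by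
    ext b
    rw [I_eq a κ hκ]
    simp only [mem_filter, mem_Ico, lt_min_iff, max_le_iff]
    have h2 : (b + 1) / 2 ^ m = v ↔ v * 2 ^ m ≤ b + 1 ∧ b + 1 < (v + 1) * 2 ^ m :=
      by
      have h5 : 0 < 2 ^ m := by positivity
      rw [Nat.div_eq_iff h5, add_mul, one_mul]
      omega
    rw [h2]
    have h3 : 0 < (v + 1) * 2 ^ m := by positivity
    omega
  rw [← filter_filter, h1, Nat.card_Ico]
  exact_mod_cast card_Ico_mod _ _ (2 ^ j) u (by positivity)

end Pool.Agent.Helper9.Champ
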