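import Mathlib
import Pool.Agent.Helper9.Champ2

set_option autoImplicit false

namespace Pool.Agent.Helper9.Champ

open Finset

theorem sum_Q {M : Type*} [AddCommMonoid M] (f : ℕ → M) (a : ℕ) :
    ∑ e ∈ range (Q a), f e = ∑ b ∈ range a, ∑ t ∈ range (Nat.size (b + 1)), f (Q b + t) := by
  induction a with
  | zero => simp [Q_zero]
  | succ n ih => rw [Q_succ, sum_range_add, ih, sum_range_succ]

/-- how many of the first `Q a` end positions show the word `w` of length `r` -/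
def cnt (a r w : ℕ) : ℕ := ((range (Q a)).filter fun e => D (e + 1) % 2 ^ r = w).card

theorem sum_group {M : Type*} [AddCommMonoid M] (a k : ℕ) (ha : a < 2 ^ k) (F : ℕ → ℕ → M) :
    ∑ b ∈ range a, F b (Nat.size (b + 1)) = ∑ κ ∈ Icc 1 k, ∑ b ∈ I a κ, F b κ := by
  have h1 : ∀ b ∈ range a, Nat.size (b + 1) ∈ Icc 1 k := by
    intro b hb
    rw [mem_range] at hb
    rw [mem_Icc]
    refine ⟨size_pos _ (Nat.succ_pos b), ?_⟩
    rw [Nat.size_le]
    omega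
  rw [← sum_fiberwise_of_maps_to h1]
  apply sum_congr rfl
  intro κ _
  unfold I
  apply sum_congr rfl
  intro b hb
  rw [mem_filter] at hb
  rw [hb.2]

/-- the count for one number length `κ` and one end offset `t` -/
def c1 (a r w κ t : ℕ) : ℕ := ((I a κ).filter fun b => D (Q b + t) % 2 ^ r = w).card

theorem cnt_eq (a r w k : ℕ) (ha : a < 2 ^ k) :
    cnt a r w = ∑ κ ∈ Icc 1 k, ∑ t ∈ Ico 1 (κ + 1), c1 a r w κ t := by
  unfold cnt
  rw [card_filter, sum_Q]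
  rw [sum_group a k ha (fun b κ => ∑ t ∈ range κ, if D (Q b + t + 1) % 2 ^ r = w then 1 else 0)]
  apply sum_congr rfl
  intro κ _
  rw [sum_comm]
  rw [range_eq_Ico, ← sum_Ico_add' (fun t => c1 a r w κ t) 0 κ 1]
  apply sum_congr rfl
  intro t _
  unfold c1
  rw [card_filter]
  rfl

theorem mem_I {a κ b : ℕ} : b ∈ I a κ ↔ b < a ∧ Nat.size (b + 1) = κ := by
  simp [I]

theorem c1_small (a r w κ t : ℕ) (hκ : κ ≤ r) (ht : 1 ≤ t) (htκ : t ≤ κ) : c1 a r w κ t ≤ 1 := by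
  unfold c1
  rw [card_le_one]
  intro b hb b' hb'
  rw [mem_filter, mem_I] at hb hb'
  obtain ⟨⟨h1, h2⟩, h3⟩ := hb
  obtain ⟨⟨h1', h2'⟩, h3'⟩ := hb'
  have e1 : D (Q b + t) % 2 ^ κ = D (Q b' + t) % 2 ^ κ := by
    have h4 : 2 ^ κ ∣ 2 ^ r := pow_dvd_pow 2 hκ
    rw [← Nat.mod_mod_of_dvd (D (Q b + t)) h4, ← Nat.mod_mod_of_dvd (D (Q b' + t)) h4, h3, h3']
  have e2 : D (Q b + t) % 2 ^ t = D (Q b' + t) % 2 ^ t := by
    have h4 : 2 ^ t ∣ 2 ^ κ := pow_dvd_pow 2 htκ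
    rw [← Nat.mod_mod_of_dvd (D (Q b + t)) h4, ← Nat.mod_mod_of_dvd (D (Q b' + t)) h4, e1]
  have e3 : D (Q b + t) / 2 ^ t % 2 ^ (κ - t) = D (Q b' + t) / 2 ^ t % 2 ^ (κ - t) := by
    have h5 : 2 ^ κ = 2 ^ t * 2 ^ (κ - t) := by
      rw [← pow_add]; congr 1; omega
    rw [h5] at e1
    rw [← Nat.mod_mul_right_div_self, ← Nat.mod_mul_right_div_self, e1]
  rw [W_low b t (by omega), W_low b' t (by omega), h2, h2'] at e2
  rw [W_high b t _ (by omega) (by omega), W_high b' t _ (by omega) (by omega)] at e3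
  have e4 : (b + 1) % 2 ^ (κ - t) = (b' + 1) % 2 ^ (κ - t) := by
    rw [Nat.add_mod, e3, ← Nat.add_mod]
  have e5 := Nat.div_add_mod (b + 1) (2 ^ (κ - t))
  have e6 := Nat.div_add_mod (b' + 1) (2 ^ (κ - t))
  rw [e2, e4] at e5
  omega

theorem c1_inside (a r w κ t : ℕ) (hκ : 0 < κ) (ht : r ≤ t) (htκ : t ≤ κ) :
    (c1 a r w κ t : ℝ) ≤ ((I a κ).card : ℝ) / 2 ^ r + 2 ^ (κ - t) := by
  refine le_trans ?_ (card_I_div_mod a κ (κ - t) r w hκ)
  unfold c1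
  apply Nat.cast_le.mpr
  apply card_le_card
  intro b hb
  rw [mem_filter] at hb ⊢
  refine ⟨hb.1, ?_⟩
  have h1 := (mem_I.mp hb.1).2
  rw [← hb.2, W_inside b t r (by omega) ht, h1]

/-- numbers of length `κ` whose first `t` digits are `v` -/
def nn (a κ t v : ℕ) : ℕ := ((I a κ).filter fun b => (b + 1) / 2 ^ (κ - t) = v).card

theorem c1_straddle (a r w κ t : ℕ) (ht : 1 ≤ t) (htr : t < r) (hrκ : r < κ) :
    (c1 a r w κ t : ℝ) ≤ (nn a κ t (w % 2 ^ t) : ℝ) / 2 ^ (r - t) + 1 := by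
  refine le_trans ?_ (card_I_div_and_mod a κ (κ - t) (r - t) (w % 2 ^ t)
    (w / 2 ^ t % 2 ^ (r - t)) (by omega))
  unfold c1
  apply Nat.cast_le.mpr
  apply card_le_card
  intro b hb
  rw [mem_filter] at hb ⊢
  refine ⟨hb.1, ?_, ?_⟩
  · have h1 := (mem_I.mp hb.1).2
    rw [← hb.2, Nat.mod_mod_of_dvd _ (pow_dvd_pow 2 htr.le), W_low b t (by omega), h1]
  · have h1 := (mem_I.mp hb.1).2
    have h5 : 2 ^ r = 2 ^ t * 2 ^ (r - t) := by
      rw [← pow_add]; congr 1; omega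
    rw [← hb.2, h5, Nat.mod_mul_right_div_self, Nat.mod_mod,
      W_high b t _ (by omega) (by omega)]

/-- the lengths above `r` -/
def K (r k : ℕ) : Finset ℕ := (Icc 1 k).filter fun κ => r < κ

noncomputable def G (a r k w : ℕ) : ℝ :=
  ∑ κ ∈ K r k, ∑ t ∈ Ico 1 r, 2 ^ t * (nn a κ t (w % 2 ^ t) : ℝ)

noncomputable def B (a r k : ℕ) : ℝ :=
  ∑ κ ∈ K r k, (((κ : ℝ) + 1 - r) * ((I a κ).card : ℝ) + 2 ^ (κ + 1)) + (k : ℝ) ^ 2 * 2 ^ r

theorem sum_two_pow_sub (κ r : ℕ) (h : r ≤ κ) :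
    ∑ t ∈ Ico r (κ + 1), (2 : ℝ) ^ (κ - t) ≤ 2 ^ (κ + 1) / 2 ^ r := by
  have h1 : ∑ t ∈ Ico r (κ + 1), (2 : ℝ) ^ (κ - t) = ∑ j ∈ range (κ + 1 - r), (2 : ℝ) ^ j := by
    rw [sum_Ico_eq_sum_range, ← sum_range_reflect (fun j => (2 : ℝ) ^ j)]
    apply sum_congr rfl
    intro j hj
    rw [mem_range] at hj
    congr 1
    omega
  rw [h1, geom_sum_eq (by norm_num)]
  have h2 : (2 : ℝ) ^ (κ + 1) / 2 ^ r = 2 ^ (κ + 1 - r) := by
    rw [div_eq_iff (by positivity), ← pow_add]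
    congr 1
    omega
  rw [h2]
  norm_num

theorem cnt_le (a r w k : ℕ) (ha : a < 2 ^ k) (hr : 1 ≤ r) :
    (cnt a r w : ℝ) * 2 ^ r ≤ B a r k + G a r k w := by
  rw [cnt_eq a r w k ha]
  have hS : ∀ κ ∈ Icc 1 k, ((∑ t ∈ Ico 1 (κ + 1), c1 a r w κ t : ℕ) : ℝ) * 2 ^ r ≤
      (k : ℝ) * 2 ^ r + if r < κ then (((κ : ℝ) + 1 - r) * ((I a κ).card : ℝ) + 2 ^ (κ + 1)) +
        ∑ t ∈ Ico 1 r, 2 ^ t * (nn a κ t (w % 2 ^ t) : ℝ) else 0 := by
    intro κ hκ
    rw [mem_Icc] at hκ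
    split_ifs with h
    · rw [← sum_Ico_consecutive _ hr (by omega : r ≤ κ + 1)]
      push_cast
      have h1 : (∑ t ∈ Ico 1 r, (c1 a r w κ t : ℝ)) ≤
          ∑ t ∈ Ico 1 r, ((nn a κ t (w % 2 ^ t) : ℝ) / 2 ^ (r - t) + 1) := by
        apply sum_le_sum
        intro t ht
        rw [mem_Ico] at ht
        exact c1_straddle a r w κ t ht.1 ht.2 h
      have h2 : (∑ t ∈ Ico r (κ + 1), (c1 a r w κ t : ℝ)) ≤
          ∑ t ∈ Ico r (κ + 1), (((I a κ).card : ℝ) / 2 ^ r + 2 ^ (κ - t)) := by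
        apply sum_le_sum
        intro t ht
        rw [mem_Ico] at ht
        exact c1_inside a r w κ t (by omega) ht.1 (by omega)
      have h3 : (∑ t ∈ Ico 1 r, ((nn a κ t (w % 2 ^ t) : ℝ) / 2 ^ (r - t) + 1)) * 2 ^ r =
          (∑ t ∈ Ico 1 r, 2 ^ t * (nn a κ t (w % 2 ^ t) : ℝ)) + ((r : ℝ) - 1) * 2 ^ r := by
        rw [sum_add_distrib, sum_const, Nat.card_Ico, add_mul, sum_mul, nsmul_eq_mul,
          Nat.cast_sub hr]
        push_cast
        rw [mul_one]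
        congr 1
        apply sum_congr rfl
        intro t ht
        rw [mem_Ico] at ht
        have h5 : (2 : ℝ) ^ r = 2 ^ t * 2 ^ (r - t) := by
          rw [← pow_add]; congr 1; omega
        rw [h5]
        field_simp
      have h4 : (∑ t ∈ Ico r (κ + 1), (((I a κ).card : ℝ) / 2 ^ r + 2 ^ (κ - t))) * 2 ^ r ≤
          ((κ : ℝ) + 1 - r) * ((I a κ).card : ℝ) + 2 ^ (κ + 1) := by
        rw [sum_add_distrib, sum_const, Nat.card_Ico, add_mul, nsmul_eq_mul,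
          Nat.cast_sub (by omega)]
        have h6 := sum_two_pow_sub κ r h.le
        have h7 : (0 : ℝ) < 2 ^ r := by positivity
        have h8 := mul_le_mul_of_nonneg_right h6 h7.le
        rw [div_mul_cancel₀ _ h7.ne'] at h8
        push_cast
        have h9 : ((κ : ℝ) + 1 - r) * (((I a κ).card : ℝ) / 2 ^ r) * 2 ^ r =
          ((κ : ℝ) + 1 - r) * ((I a κ).card : ℝ) := by
          field_simp
        rw [h9]
        linarith
      have h7 : (0 : ℝ) < 2 ^ r := by positivity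
      have h8 := mul_le_mul_of_nonneg_right h1 h7.le
      have h9 := mul_le_mul_of_nonneg_right h2 h7.le
      have h10 : ((r : ℝ) - 1) * 2 ^ r ≤ k * 2 ^ r := by
        apply mul_le_mul_of_nonneg_right _ h7.le
        have : (r : ℝ) ≤ k := by exact_mod_cast (by omega : r ≤ k)
        linarith
      rw [add_mul]
      linarith
    · rw [add_zero]
      apply mul_le_mul_of_nonneg_right _ (by positivity)
      have h1 : ∑ t ∈ Ico 1 (κ + 1), c1 a r w κ t ≤ ∑ t ∈ Ico 1 (κ + 1), 1 := by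
        apply sum_le_sum
        intro t ht
        rw [mem_Ico] at ht
        exact c1_small a r w κ t (by omega) ht.1 (by omega)
      rw [sum_const, Nat.card_Ico, smul_eq_mul, mul_one] at h1
      exact_mod_cast (by omega : ∑ t ∈ Ico 1 (κ + 1), c1 a r w κ t ≤ k)
  calc ((∑ κ ∈ Icc 1 k, ∑ t ∈ Ico 1 (κ + 1), c1 a r w κ t : ℕ) : ℝ) * 2 ^ r
      = ∑ κ ∈ Icc 1 k, ((∑ t ∈ Ico 1 (κ + 1), c1 a r w κ t : ℕ) : ℝ) * 2 ^ r := by
        rw [Nat.cast_sum, sum_mul]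
    _ ≤ _ := sum_le_sum hS
    _ = _ := by
        rw [sum_add_distrib, ← sum_filter, sum_const, Nat.card_Icc, nsmul_eq_mul]
        unfold B G K
        rw [sum_add_distrib]
        push_cast
        ring

end Pool.Agent.Helper9.Champ
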