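import Mathlib
import Pool.Agent.Helper9.Champ3

set_option autoImplicit false

namespace Pool.Agent.Helper9.Champ

open Finset

theorem card_range_mod (r t x : ℕ) (ht : t ≤ r) :
    ((range (2 ^ r)).filter fun w => w % 2 ^ t = x).card ≤ 2 ^ (r - t) := by
  have h1 : ((range (2 ^ r)).filter fun w => w % 2 ^ t = x).card ≤ (range (2 ^ (r - t))).card := by
    apply card_le_card_of_injOn (fun w => w / 2 ^ t)
    · intro w hw
      rw [coe_filter, Set.mem_ofPred_eq, mem_range] at hw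
      rw [coe_range, Set.mem_Iio]
      apply Nat.div_lt_of_lt_mul
      rw [← pow_add, Nat.add_sub_cancel' ht]
      exact hw.1
    · intro w hw w' hw' h
      rw [coe_filter, Set.mem_ofPred_eq, mem_range] at hw hw'
      have e5 := Nat.div_add_mod w (2 ^ t)
      have e6 := Nat.div_add_mod w' (2 ^ t)
      simp only at h
      rw [h, hw.2] at e5
      rw [hw'.2] at e6
      omega
  rwa [card_range] at h1

/-- cross correlation of two leading-digit counting functions, `t' ≤ t` -/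
theorem cross (a r κ κ' t t' : ℕ) (hκ : 0 < κ) (htt : t' ≤ t) (htr : t ≤ r) :
    ∑ w ∈ range (2 ^ r), (nn a κ t (w % 2 ^ t) : ℝ) * (nn a κ' t' (w % 2 ^ t') : ℝ) ≤
      2 ^ (r - t) * (((I a κ').card : ℝ) * (((I a κ).card : ℝ) / 2 ^ t' + 2 ^ (κ - t))) := by
  have h1 : ∀ w, (nn a κ t (w % 2 ^ t) : ℝ) * (nn a κ' t' (w % 2 ^ t') : ℝ) =
      ∑ b' ∈ I a κ', ∑ b ∈ I a κ, if (b + 1) / 2 ^ (κ - t) = w % 2 ^ t ∧
        (b' + 1) / 2 ^ (κ' - t') = w % 2 ^ t' then (1 : ℝ) else 0 := by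
    intro w
    unfold nn
    rw [card_filter, card_filter]
    push_cast
    rw [sum_mul_sum, sum_comm]
    apply sum_congr rfl
    intro b' _
    apply sum_congr rfl
    intro b _
    by_cases h2 : (b + 1) / 2 ^ (κ - t) = w % 2 ^ t
    · by_cases h3 : (b' + 1) / 2 ^ (κ' - t') = w % 2 ^ t'
      · simp [h2, h3]
      · simp [h3]
    · simp [h2]
  simp_rw [h1]
  rw [sum_comm]
  calc _ ≤ ∑ b' ∈ I a κ', (2 : ℝ) ^ (r - t) * (((I a κ).card : ℝ) / 2 ^ t' + 2 ^ (κ - t)) := by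
        apply sum_le_sum
        intro b' _
        rw [sum_comm]
        calc _ ≤ ∑ b ∈ I a κ, (2 : ℝ) ^ (r - t) *
              (if (b + 1) / 2 ^ (κ - t) % 2 ^ t' = (b' + 1) / 2 ^ (κ' - t') then (1 : ℝ) else 0) := by
              apply sum_le_sum
              intro b _
              rw [← sum_filter, sum_const, nsmul_eq_mul, mul_one]
              split_ifs with h4
              · rw [mul_one]
                have h5 := card_range_mod r t ((b + 1) / 2 ^ (κ - t)) htr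
                have h6 : ((range (2 ^ r)).filter fun w => (b + 1) / 2 ^ (κ - t) = w % 2 ^ t ∧
                  (b' + 1) / 2 ^ (κ' - t') = w % 2 ^ t').card ≤ 2 ^ (r - t) := by
                  refine le_trans (card_le_card ?_) h5
                  intro w hw
                  rw [mem_filter] at hw ⊢
                  exact ⟨hw.1, hw.2.1.symm⟩
                exact_mod_cast h6
              · rw [mul_zero]
                have h6 : ((range (2 ^ r)).filter fun w => (b + 1) / 2 ^ (κ - t) = w % 2 ^ t ∧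
                  (b' + 1) / 2 ^ (κ' - t') = w % 2 ^ t') = ∅ := by
                  apply filter_eq_empty_iff.mpr
                  rintro w _ ⟨h7, h8⟩
                  apply h4
                  rw [h7, h8, Nat.mod_mod_of_dvd _ (pow_dvd_pow 2 htt)]
                rw [h6]
                simp
          _ = (2 : ℝ) ^ (r - t) * (((I a κ).filter fun b => (b + 1) / 2 ^ (κ - t) % 2 ^ t' =
                (b' + 1) / 2 ^ (κ' - t')).card : ℝ) := by
              rw [← mul_sum, card_filter]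
              push_cast
              rfl
          _ ≤ _ := by
              apply mul_le_mul_of_nonneg_left _ (by positivity)
              exact card_I_div_mod a κ (κ - t) t' _ hκ
    _ = _ := by
        rw [sum_const, nsmul_eq_mul]
        ring

/-- weight of the error term -/
noncomputable def ee (t t' : ℕ) : ℝ := (1 / 2) ^ ((t - t') + (t' - t))

theorem cross' (a r κ κ' t t' : ℕ) (hκ : 0 < κ) (hκ' : 0 < κ') (htt : t' ≤ t) (htr : t < r)
    (htκ : t ≤ κ) :
    ∑ w ∈ range (2 ^ r), (2 ^ t * (nn a κ t (w % 2 ^ t) : ℝ)) *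
      (2 ^ t' * (nn a κ' t' (w % 2 ^ t') : ℝ)) ≤
      2 ^ r * (((I a κ).card : ℝ) * ((I a κ').card : ℝ) + 2 ^ κ * 2 ^ κ' * ee t t') := by
  have h1 := cross a r κ κ' t t' hκ htt htr.le
  have h2 : ∑ w ∈ range (2 ^ r), (2 ^ t * (nn a κ t (w % 2 ^ t) : ℝ)) *
      (2 ^ t' * (nn a κ' t' (w % 2 ^ t') : ℝ)) = 2 ^ t * 2 ^ t' *
      ∑ w ∈ range (2 ^ r), (nn a κ t (w % 2 ^ t) : ℝ) * (nn a κ' t' (w % 2 ^ t') : ℝ) := by
    rw [mul_sum]
    apply sum_congr rfl
    intro w _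
    ring
  rw [h2]
  have h3 : (0 : ℝ) < 2 ^ t * 2 ^ t' := by positivity
  refine (mul_le_mul_of_nonneg_left h1 h3.le).trans ?_
  have h4 : (2 : ℝ) ^ r = 2 ^ t * 2 ^ (r - t) := by
    rw [← pow_add]; congr 1; omega
  have h5 : (2 : ℝ) ^ κ = 2 ^ t * 2 ^ (κ - t) := by
    rw [← pow_add]; congr 1; omega
  have h6 : (2 : ℝ) ^ t = 2 ^ t' * 2 ^ (t - t') := by
    rw [← pow_add]; congr 1; omega
  have h7 : ee t t' = 1 / 2 ^ (t - t') := by
    unfold ee
    rw [Nat.sub_eq_zero_of_le htt, add_zero, one_div_pow]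
  have h8 : (((I a κ').card : ℕ) : ℝ) ≤ 2 ^ κ' := by exact_mod_cast card_I_le a κ' hκ'
  rw [h7]
  have h9 : (2 : ℝ) ^ κ * 2 ^ κ' * (1 / 2 ^ (t - t')) = 2 ^ t' * 2 ^ (κ - t) * 2 ^ κ' := by
    rw [h5, h6]
    field_simp
  rw [h9, h4]
  have h10 : (2 : ℝ) ^ t * 2 ^ t' * (2 ^ (r - t) * (((I a κ').card : ℝ) * (((I a κ).card : ℝ) / 2 ^ t' + 2 ^ (κ - t)))) =
    2 ^ t * 2 ^ (r - t) * (((I a κ).card : ℝ) * ((I a κ').card : ℝ) + 2 ^ t' * 2 ^ (κ - t) * ((I a κ').card : ℝ)) := by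
    field_simp
  rw [h10]
  gcongr

theorem cross'' (a r κ κ' t t' : ℕ) (hκ : r < κ) (hκ' : r < κ') (htr : t < r) (htr' : t' < r) :
    ∑ w ∈ range (2 ^ r), (2 ^ t * (nn a κ t (w % 2 ^ t) : ℝ)) *
      (2 ^ t' * (nn a κ' t' (w % 2 ^ t') : ℝ)) ≤
      2 ^ r * (((I a κ).card : ℝ) * ((I a κ').card : ℝ) + 2 ^ κ * 2 ^ κ' * ee t t') := by
  rcases le_total t' t with h | h
  · exact cross' a r κ κ' t t' (by omega) (by omega) h htr (by omega)
  · have h1 := cross' a r κ' κ t' t (by omega) (by omega) h htr' (by omega)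
    have h2 : ee t' t = ee t t' := by
      unfold ee
      rw [add_comm]
    rw [h2] at h1
    calc _ = ∑ w ∈ range (2 ^ r), (2 ^ t' * (nn a κ' t' (w % 2 ^ t') : ℝ)) *
      (2 ^ t * (nn a κ t (w % 2 ^ t) : ℝ)) := by
          apply sum_congr rfl
          intro w _
          ring
      _ ≤ _ := h1
      _ = _ := by ring

theorem sum_ee (t r : ℕ) : ∑ t' ∈ Ico 1 r, ee t t' ≤ 4 := by
  have h1 : ∑ t' ∈ Ico 1 r, ee t t' ≤
      ∑ t' ∈ range (t + 1), (1 / 2 : ℝ) ^ (t - t') + ∑ t' ∈ Ico t (t + r), (1 / 2 : ℝ) ^ (t' - t) := by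
    have h2 : ∀ t', ee t t' ≤ (if t' ∈ range (t + 1) then (1 / 2 : ℝ) ^ (t - t') else 0) +
        (if t' ∈ Ico t (t + r) then (1 / 2 : ℝ) ^ (t' - t) else 0) ∨ t' ∉ Ico 1 r := by
      intro t'
      by_cases h3 : t' ∈ Ico 1 r
      · left
        rw [mem_Ico] at h3
        rcases le_total t' t with h4 | h4
        · have h5 : t' ∈ range (t + 1) := by rw [mem_range]; omega
          rw [if_pos h5]
          have h6 : (0 : ℝ) ≤ (if t' ∈ Ico t (t + r) then (1 / 2 : ℝ) ^ (t' - t) else 0) := by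
            split_ifs <;> positivity
          have h7 : ee t t' = (1 / 2 : ℝ) ^ (t - t') := by
            unfold ee
            rw [Nat.sub_eq_zero_of_le h4, add_zero]
          linarith
        · have h5 : t' ∈ Ico t (t + r) := by rw [mem_Ico]; omega
          rw [if_pos h5]
          have h6 : (0 : ℝ) ≤ (if t' ∈ range (t + 1) then (1 / 2 : ℝ) ^ (t - t') else 0) := by
            split_ifs <;> positivity
          have h7 : ee t t' = (1 / 2 : ℝ) ^ (t' - t) := by
            unfold ee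
            rw [Nat.sub_eq_zero_of_le h4, zero_add]
          linarith
      · right; exact h3
    calc ∑ t' ∈ Ico 1 r, ee t t' ≤ ∑ t' ∈ Ico 1 r,
        ((if t' ∈ range (t + 1) then (1 / 2 : ℝ) ^ (t - t') else 0) +
        (if t' ∈ Ico t (t + r) then (1 / 2 : ℝ) ^ (t' - t) else 0)) := by
          apply sum_le_sum
          intro t' ht'
          rcases h2 t' with h | h
          · exact h
          · exact absurd ht' h
      _ ≤ _ := by
          rw [sum_add_distrib]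
          apply add_le_add
          · rw [← sum_filter]
            apply sum_le_sum_of_subset_of_nonneg
            · intro x hx
              exact (mem_filter.mp hx).2
            · intro i _ _
              positivity
          · rw [← sum_filter]
            apply sum_le_sum_of_subset_of_nonneg
            · intro x hx
              exact (mem_filter.mp hx).2
            · intro i _ _
              positivity
  have h3 : ∑ t' ∈ range (t + 1), (1 / 2 : ℝ) ^ (t - t') = ∑ j ∈ range (t + 1), (1 / 2 : ℝ) ^ j := by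
    rw [← sum_range_reflect (fun j => (1 / 2 : ℝ) ^ j)]
    apply sum_congr rfl
    intro j hj
    rw [mem_range] at hj
    congr 1
  have h4 : ∑ t' ∈ Ico t (t + r), (1 / 2 : ℝ) ^ (t' - t) = ∑ j ∈ range r, (1 / 2 : ℝ) ^ j := by
    rw [sum_Ico_eq_sum_range]
    have : t + r - t = r := by omega
    rw [this]
    apply sum_congr rfl
    intro j _
    congr 1
    omega
  have h5 : ∀ n : ℕ, ∑ j ∈ range n, (1 / 2 : ℝ) ^ j ≤ 2 := by
    intro n
    rw [geom_sum_eq (by norm_num)]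
    have : (0 : ℝ) < (1 / 2) ^ n := by positivity
    rw [div_le_iff_of_neg (by norm_num)]
    linarith
  rw [h3, h4] at h1
  linarith [h5 (t + 1), h5 r]

theorem sum_K_two_pow (r k : ℕ) : ∑ κ ∈ K r k, (2 : ℝ) ^ κ ≤ 2 ^ (k + 1) := by
  calc ∑ κ ∈ K r k, (2 : ℝ) ^ κ ≤ ∑ κ ∈ range (k + 1), (2 : ℝ) ^ κ := by
        apply sum_le_sum_of_subset_of_nonneg
        · intro x hx
          unfold K at hx
          rw [mem_filter, mem_Icc] at hx
          rw [mem_range]
          omega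
        · intro i _ _
          positivity
    _ ≤ _ := by
        rw [geom_sum_eq (by norm_num)]
        norm_num

/-- the mean of `G` -/
noncomputable def M (a r k : ℕ) : ℝ := ∑ κ ∈ K r k, ∑ _t ∈ Ico 1 r, ((I a κ).card : ℝ)

theorem sum_G_sq (a r k : ℕ) :
    ∑ w ∈ range (2 ^ r), (G a r k w) ^ 2 ≤ 2 ^ r * ((M a r k) ^ 2 + 16 * r * 4 ^ k) := by
  have h1 : ∀ w, (G a r k w) ^ 2 = ∑ κ ∈ K r k, ∑ t ∈ Ico 1 r, ∑ κ' ∈ K r k, ∑ t' ∈ Ico 1 r,
      (2 ^ t * (nn a κ t (w % 2 ^ t) : ℝ)) * (2 ^ t' * (nn a κ' t' (w % 2 ^ t') : ℝ)) := by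
    intro w
    unfold G
    rw [sq, sum_mul]
    apply sum_congr rfl
    intro κ _
    rw [sum_mul]
    apply sum_congr rfl
    intro t _
    rw [mul_sum]
    apply sum_congr rfl
    intro κ' _
    rw [mul_sum]
  simp_rw [h1]
  have h2 : ∑ w ∈ range (2 ^ r), ∑ κ ∈ K r k, ∑ t ∈ Ico 1 r, ∑ κ' ∈ K r k, ∑ t' ∈ Ico 1 r,
      (2 ^ t * (nn a κ t (w % 2 ^ t) : ℝ)) * (2 ^ t' * (nn a κ' t' (w % 2 ^ t') : ℝ)) =
      ∑ κ ∈ K r k, ∑ t ∈ Ico 1 r, ∑ κ' ∈ K r k, ∑ t' ∈ Ico 1 r, ∑ w ∈ range (2 ^ r),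
      (2 ^ t * (nn a κ t (w % 2 ^ t) : ℝ)) * (2 ^ t' * (nn a κ' t' (w % 2 ^ t') : ℝ)) := by
    rw [sum_comm]
    apply sum_congr rfl
    intro κ _
    rw [sum_comm]
    apply sum_congr rfl
    intro t _
    rw [sum_comm]
    apply sum_congr rfl
    intro κ' _
    rw [sum_comm]
  rw [h2]
  have hK : ∀ κ ∈ K r k, r < κ := fun κ hκ => (mem_filter.mp hκ).2
  calc _ ≤ ∑ κ ∈ K r k, ∑ t ∈ Ico 1 r, ∑ κ' ∈ K r k, ∑ t' ∈ Ico 1 r,
        (2 : ℝ) ^ r * (((I a κ).card : ℝ) * ((I a κ').card : ℝ) + 2 ^ κ * 2 ^ κ' * ee t t') := by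
        apply sum_le_sum
        intro κ hκ
        apply sum_le_sum
        intro t ht
        apply sum_le_sum
        intro κ' hκ'
        apply sum_le_sum
        intro t' ht'
        rw [mem_Ico] at ht ht'
        exact cross'' a r κ κ' t t' (hK κ hκ) (hK κ' hκ') ht.2 ht'.2
    _ = (2 : ℝ) ^ r * ((M a r k) ^ 2 + ∑ κ ∈ K r k, ∑ t ∈ Ico 1 r, ∑ κ' ∈ K r k, ∑ t' ∈ Ico 1 r,
        (2 : ℝ) ^ κ * 2 ^ κ' * ee t t') := by
        have h3 : (M a r k) ^ 2 = ∑ κ ∈ K r k, ∑ t ∈ Ico 1 r, ∑ κ' ∈ K r k, ∑ t' ∈ Ico 1 r,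
            ((I a κ).card : ℝ) * ((I a κ').card : ℝ) := by
          unfold M
          rw [sq, sum_mul]
          apply sum_congr rfl
          intro κ _
          rw [sum_mul]
          apply sum_congr rfl
          intro t _
          rw [mul_sum]
          apply sum_congr rfl
          intro κ' _
          rw [mul_sum]
        rw [h3]
        simp_rw [mul_add, sum_add_distrib, mul_sum]
    _ ≤ (2 : ℝ) ^ r * ((M a r k) ^ 2 + ∑ κ ∈ K r k, ∑ t ∈ Ico 1 r, ∑ κ' ∈ K r k,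
        (2 : ℝ) ^ κ * 2 ^ κ' * 4) := by
        gcongr with κ hκ t ht κ' hκ'
        rw [← mul_sum]
        apply mul_le_mul_of_nonneg_left (sum_ee t r) (by positivity)
    _ ≤ (2 : ℝ) ^ r * ((M a r k) ^ 2 + 4 * r * (2 ^ (k + 1) * 2 ^ (k + 1))) := by
        gcongr
        have h4 : ∑ κ ∈ K r k, ∑ t ∈ Ico 1 r, ∑ κ' ∈ K r k, (2 : ℝ) ^ κ * 2 ^ κ' * 4 =
            4 * ((r - 1 : ℕ) : ℝ) * ((∑ κ ∈ K r k, (2 : ℝ) ^ κ) * (∑ κ ∈ K r k, (2 : ℝ) ^ κ)) := by
          rw [sum_mul_sum, mul_sum]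
          apply sum_congr rfl
          intro κ _
          rw [sum_const, Nat.card_Ico, nsmul_eq_mul, mul_sum, mul_sum]
          apply sum_congr rfl
          intro κ' _
          ring
        rw [h4]
        have h5 := sum_K_two_pow r k
        have h6 : (0 : ℝ) ≤ ∑ κ ∈ K r k, (2 : ℝ) ^ κ := sum_nonneg fun i _ => by positivity
        have h7 : ((r - 1 : ℕ) : ℝ) ≤ r := by exact_mod_cast Nat.sub_le r 1
        gcongr
    _ = _ := by
        have : (4 : ℝ) ^ k = 2 ^ k * 2 ^ k := by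
          rw [← mul_pow]; norm_num
        rw [this]
        ring

theorem sum_G (a r k : ℕ) :
    ∑ w ∈ range (2 ^ r), G a r k w ≤ 2 ^ r * M a r k := by
  unfold G M
  rw [sum_comm, mul_sum]
  apply sum_le_sum
  intro κ _
  rw [sum_comm, mul_sum]
  apply sum_le_sum
  intro t ht
  rw [mem_Ico] at ht
  rw [← mul_sum]
  have h1 : ∑ w ∈ range (2 ^ r), (nn a κ t (w % 2 ^ t) : ℝ) ≤ 2 ^ (r - t) * ((I a κ).card : ℝ) := by
    have h2 : ∀ w, (nn a κ t (w % 2 ^ t) : ℝ) =
        ∑ b ∈ I a κ, if (b + 1) / 2 ^ (κ - t) = w % 2 ^ t then (1 : ℝ) else 0 := by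
      intro w
      unfold nn
      rw [card_filter]
      push_cast
      rfl
    simp_rw [h2]
    rw [sum_comm]
    calc _ ≤ ∑ b ∈ I a κ, (2 : ℝ) ^ (r - t) := by
          apply sum_le_sum
          intro b _
          rw [← sum_filter, sum_const, nsmul_eq_mul, mul_one]
          have h5 := card_range_mod r t ((b + 1) / 2 ^ (κ - t)) ht.2.le
          have h6 : ((range (2 ^ r)).filter fun w => (b + 1) / 2 ^ (κ - t) = w % 2 ^ t).card ≤
              2 ^ (r - t) := by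
            refine le_trans (card_le_card ?_) h5
            intro w hw
            rw [mem_filter] at hw ⊢
            exact ⟨hw.1, hw.2.symm⟩
          exact_mod_cast h6
      _ = _ := by
          rw [sum_const, nsmul_eq_mul]
          ring
  calc (2 : ℝ) ^ t * ∑ w ∈ range (2 ^ r), (nn a κ t (w % 2 ^ t) : ℝ) ≤
      2 ^ t * (2 ^ (r - t) * ((I a κ).card : ℝ)) := by gcongr
    _ = _ := by
        rw [← mul_assoc, ← pow_add]
        congr 2
        omega

theorem Q_eq (a k : ℕ) (ha : a < 2 ^ k) : (Q a : ℝ) = ∑ κ ∈ Icc 1 k, (κ : ℝ) * ((I a κ).card : ℝ) := by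
  have h1 := sum_Q (fun _ => (1 : ℝ)) a
  rw [sum_const, card_range, nsmul_eq_mul, mul_one] at h1
  rw [h1, sum_group a k ha (fun _ κ => ∑ _t ∈ range κ, (1 : ℝ))]
  apply sum_congr rfl
  intro κ _
  rw [sum_const, sum_const, card_range, nsmul_eq_mul, nsmul_eq_mul]
  ring

theorem B_add_M (a r k : ℕ) (ha : a < 2 ^ k) (hr : 1 ≤ r) :
    B a r k + M a r k ≤ Q a + 2 ^ (k + 2) + (k : ℝ) ^ 2 * 2 ^ r := by
  have h1 : B a r k + M a r k = ∑ κ ∈ K r k, ((κ : ℝ) * ((I a κ).card : ℝ) + 2 * 2 ^ κ) +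
      (k : ℝ) ^ 2 * 2 ^ r := by
    unfold B M
    rw [add_right_comm, ← sum_add_distrib]
    congr 1
    apply sum_congr rfl
    intro κ _
    rw [sum_const, Nat.card_Ico, nsmul_eq_mul, Nat.cast_sub hr]
    push_cast
    ring
  rw [h1, sum_add_distrib, ← mul_sum]
  have h2 : ∑ κ ∈ K r k, (κ : ℝ) * ((I a κ).card : ℝ) ≤ Q a := by
    rw [Q_eq a k ha]
    apply sum_le_sum_of_subset_of_nonneg
    · exact filter_subset _ _
    · intro i _ _
      positivity
  have h3 := sum_K_two_pow r k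
  have h4 : (2 : ℝ) ^ (k + 2) = 2 * 2 ^ (k + 1) := by ring
  linarith

theorem B_nonneg (a r k : ℕ) : 0 ≤ B a r k := by
  unfold B
  apply add_nonneg
  · apply sum_nonneg
    intro κ hκ
    have h : r < κ := (mem_filter.mp hκ).2
    have h1 : (r : ℝ) ≤ κ := by exact_mod_cast h.le
    have h2 : (0 : ℝ) ≤ (κ : ℝ) + 1 - r := by linarith
    positivity
  · positivity

theorem M_nonneg (a r k : ℕ) : 0 ≤ M a r k := by
  unfold M
  positivity

theorem G_nonneg (a r k w : ℕ) : 0 ≤ G a r k w := by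
  unfold G
  positivity

/-- the `L²` bound for the word counts at the end of the block of `a` -/
theorem L2 (a r k : ℕ) (ha : a < 2 ^ k) (hr : 1 ≤ r) :
    2 ^ r * ∑ w ∈ range (2 ^ r), (cnt a r w : ℝ) ^ 2 ≤
      ((Q a : ℝ) + 2 ^ (k + 2) + (k : ℝ) ^ 2 * 2 ^ r) ^ 2 + 16 * r * 4 ^ k := by
  have hp : (0 : ℝ) < 2 ^ r := by positivity
  have h1 : ∑ w ∈ range (2 ^ r), ((cnt a r w : ℝ) * 2 ^ r) ^ 2 ≤
      ∑ w ∈ range (2 ^ r), (B a r k + G a r k w) ^ 2 := by
    apply sum_le_sum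
    intro w _
    have := cnt_le a r w k ha hr
    have h0 : 0 ≤ (cnt a r w : ℝ) * 2 ^ r := by positivity
    exact pow_le_pow_left₀ h0 this 2
  have h2 : ∑ w ∈ range (2 ^ r), (B a r k + G a r k w) ^ 2 =
      2 ^ r * B a r k ^ 2 + 2 * B a r k * ∑ w ∈ range (2 ^ r), G a r k w +
      ∑ w ∈ range (2 ^ r), G a r k w ^ 2 := by
    simp_rw [add_sq]
    rw [sum_add_distrib, sum_add_distrib, sum_const, card_range, nsmul_eq_mul, ← mul_sum]
    push_cast
    ring
  have h3 := sum_G a r k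
  have h4 := sum_G_sq a r k
  have h5 := B_add_M a r k ha hr
  have h6 := B_nonneg a r k
  have h7 := M_nonneg a r k
  have h8 : ∑ w ∈ range (2 ^ r), ((cnt a r w : ℝ) * 2 ^ r) ^ 2 =
      2 ^ r * (2 ^ r * ∑ w ∈ range (2 ^ r), (cnt a r w : ℝ) ^ 2) := by
    rw [← mul_assoc, mul_sum]
    apply sum_congr rfl
    intro w _
    ring
  have h9 : 2 * B a r k * ∑ w ∈ range (2 ^ r), G a r k w ≤ 2 * B a r k * (2 ^ r * M a r k) := by
    gcongr
  have h10 : 2 ^ r * (2 ^ r * ∑ w ∈ range (2 ^ r), (cnt a r w : ℝ) ^ 2) ≤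
      2 ^ r * ((B a r k + M a r k) ^ 2 + 16 * r * 4 ^ k) := by
    rw [← h8]
    refine h1.trans ?_
    rw [h2]
    nlinarith [h4, h9]
  have h11 := le_of_mul_le_mul_left h10 hp
  refine h11.trans ?_
  gcongr

end Pool.Agent.Helper9.Champ
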