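import Mathlib
import Pool.Agent.Helper9.Champ4

set_option autoImplicit false

namespace Pool.Agent.Helper9.Champ

open Finset

theorem psum_eq (e : ℕ) : ∑ i ∈ range e, (cdigit i : ℝ) / 2 ^ (i + 1) = (D e : ℝ) / 2 ^ e := by
  induction e with
  | zero => simp [D]
  | succ n ih =>
    rw [sum_range_succ, ih]
    have : D (n + 1) = 2 * D n + cdigit n := rfl
    rw [this]
    push_cast
    rw [pow_succ]
    field_simp

theorem term_le (i : ℕ) : (cdigit i : ℝ) / 2 ^ (i + 1) ≤ (1 / 2) ^ i / 2 := by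
  have h : (cdigit i : ℝ) ≤ 1 := by exact_mod_cast cdigit_le_one i
  calc (cdigit i : ℝ) / 2 ^ (i + 1) ≤ 1 / 2 ^ (i + 1) := by gcongr
    _ = _ := by rw [pow_succ, one_div_pow]; field_simp

theorem summable_digits : Summable fun i : ℕ => (cdigit i : ℝ) / 2 ^ (i + 1) := by
  apply Summable.of_nonneg_of_le (fun i => by positivity) term_le
  exact (summable_geometric_of_lt_one (by norm_num) (by norm_num)).div_const 2

theorem alpha_bounds (e : ℕ) : (D e : ℝ) ≤ 2 ^ e * champ ∧ 2 ^ e * champ ≤ D e + 1 := by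
  have h1 := summable_digits.sum_add_tsum_nat_add e
  rw [psum_eq] at h1
  have hs := (summable_nat_add_iff e).mpr summable_digits
  have h2 : 0 ≤ ∑' i : ℕ, (cdigit (i + e) : ℝ) / 2 ^ (i + e + 1) :=
    tsum_nonneg fun i => by positivity
  have h3 : ∑' i : ℕ, (cdigit (i + e) : ℝ) / 2 ^ (i + e + 1) ≤ 1 / 2 ^ e := by
    have h4 : ∀ i : ℕ, (cdigit (i + e) : ℝ) / 2 ^ (i + e + 1) ≤ 1 / 2 ^ e * ((1 / 2) ^ i / 2) := by
      intro i
      refine (term_le (i + e)).trans (le_of_eq ?_)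
      rw [pow_add, one_div_pow, one_div_pow]
      ring
    have h5 : Summable fun i : ℕ => 1 / (2 : ℝ) ^ e * ((1 / 2) ^ i / 2) :=
      ((summable_geometric_of_lt_one (by norm_num) (by norm_num)).div_const 2).mul_left _
    refine (hs.tsum_le_tsum h4 h5).trans (le_of_eq ?_)
    rw [tsum_mul_left, tsum_div_const, tsum_geometric_of_lt_one (by norm_num) (by norm_num)]
    norm_num
  have h6 : (0 : ℝ) < 2 ^ e := by positivity
  have h7 : champ = (D e : ℝ) / 2 ^ e + ∑' i : ℕ, (cdigit (i + e) : ℝ) / 2 ^ (i + e + 1) := by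
    rw [h1]; rfl
  have h8 : 2 ^ e * champ = D e + 2 ^ e * ∑' i : ℕ, (cdigit (i + e) : ℝ) / 2 ^ (i + e + 1) := by
    rw [h7, mul_add, mul_div_cancel₀ _ h6.ne']
  rw [h8]
  constructor
  · have := mul_nonneg h6.le h2
    linarith
  · have := mul_le_mul_of_nonneg_left h3 h6.le
    rw [mul_one_div_cancel h6.ne'] at this
    linarith

/-- distance to the nearest integer -/
noncomputable def nd (t : ℝ) : ℝ := |t - round t|

noncomputable def xx (n : ℕ) : ℝ := Int.fract (2 ^ n * champ)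

theorem nd_le_iff (l m : ℕ) (δ : ℝ) :
    nd (xx l - xx m) ≤ δ ↔ ∃ z : ℤ, |2 ^ l * champ - 2 ^ m * champ - z| ≤ δ := by
  unfold nd xx
  constructor
  · intro h
    refine ⟨round (Int.fract (2 ^ l * champ) - Int.fract (2 ^ m * champ)) + ⌊2 ^ l * champ⌋ -
      ⌊2 ^ m * champ⌋, ?_⟩
    refine le_trans (le_of_eq ?_) h
    congr 1
    unfold Int.fract
    push_cast
    ring
  · rintro ⟨z, hz⟩
    refine (round_le _ (z - ⌊2 ^ l * champ⌋ + ⌊2 ^ m * champ⌋)).trans (le_trans (le_of_eq ?_) hz)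
    congr 1
    unfold Int.fract
    push_cast
    ring

/-- residue class counts -/
def A (N r : ℕ) (w : ZMod (2 ^ r)) : ℕ := ((Icc 1 N).filter fun n => (D (n + r) : ZMod (2 ^ r)) = w).card

noncomputable def S2 (N r : ℕ) : ℝ := ∑ w : ZMod (2 ^ r), (A N r w : ℝ) ^ 2

def PP (N r : ℕ) (h : ℤ) : Finset (ℕ × ℕ) := (Icc 1 N ×ˢ Icc 1 N).filter fun p =>
  (D (p.1 + r) : ZMod (2 ^ r)) = (D (p.2 + r) : ZMod (2 ^ r)) + (h : ZMod (2 ^ r))

theorem card_PP (N r : ℕ) (h : ℤ) :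
    ((PP N r h).card : ℝ) = ∑ w : ZMod (2 ^ r), (A N r w : ℝ) * (A N r (w + (h : ZMod (2 ^ r))) : ℝ) := by
  have h1 : (PP N r h).card = ∑ w : ZMod (2 ^ r), A N r w * A N r (w + (h : ZMod (2 ^ r))) := by
    have h2 : ∀ p ∈ PP N r h, (D (p.2 + r) : ZMod (2 ^ r)) ∈ (univ : Finset (ZMod (2 ^ r))) :=
      fun p _ => mem_univ _
    rw [card_eq_sum_card_fiberwise h2]
    apply sum_congr rfl
    intro w _
    unfold A
    rw [mul_comm, ← card_product]
    congr 1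
    ext p
    unfold PP
    simp only [mem_filter, mem_product]
    constructor
    · rintro ⟨⟨⟨h3, h4⟩, h5⟩, h6⟩
      exact ⟨⟨h3, by rw [h5, h6]⟩, h4, h6⟩
    · rintro ⟨⟨h3, h4⟩, h5, h6⟩
      exact ⟨⟨⟨h3, h5⟩, by rw [h4, h6]⟩, h6⟩
  rw [h1]
  push_cast
  rfl

theorem sum_A (N r : ℕ) : ∑ w : ZMod (2 ^ r), (A N r w : ℝ) = N := by
  have h2 : ∀ n ∈ Icc 1 N, (D (n + r) : ZMod (2 ^ r)) ∈ (univ : Finset (ZMod (2 ^ r))) :=
      fun p _ => mem_univ _
  have h1 := card_eq_sum_card_fiberwise h2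
  rw [Nat.card_Icc, Nat.add_sub_cancel] at h1
  conv_rhs => rw [h1]
  push_cast
  rfl

theorem sum_shift (N r : ℕ) (h : ZMod (2 ^ r)) (f : ℝ → ℝ) :
    ∑ w : ZMod (2 ^ r), f (A N r (w + h) : ℝ) = ∑ w : ZMod (2 ^ r), f (A N r w : ℝ) :=
  Fintype.sum_equiv (Equiv.addRight h) _ _ fun _ => rfl

theorem PP_upper (N r : ℕ) (h : ℤ) : ((PP N r h).card : ℝ) ≤ S2 N r := by
  rw [card_PP]
  have h1 := sum_shift N r (h : ZMod (2 ^ r)) (fun y => y ^ 2)
  have h2 : ∑ w : ZMod (2 ^ r), (A N r w : ℝ) * (A N r (w + (h : ZMod (2 ^ r))) : ℝ) ≤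
      ∑ w : ZMod (2 ^ r), ((A N r w : ℝ) ^ 2 / 2 + (A N r (w + (h : ZMod (2 ^ r))) : ℝ) ^ 2 / 2) := by
    apply sum_le_sum
    intro w _
    nlinarith [sq_nonneg ((A N r w : ℝ) - (A N r (w + (h : ZMod (2 ^ r))) : ℝ))]
  rw [sum_add_distrib, ← sum_div, ← sum_div] at h2
  rw [h1] at h2
  unfold S2
  linarith

theorem PP_lower (N r : ℕ) (h : ℤ) : 2 * (N : ℝ) ^ 2 / 2 ^ r - S2 N r ≤ ((PP N r h).card : ℝ) := by
  rw [card_PP]
  set μ : ℝ := (N : ℝ) / 2 ^ r with hμ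
  have h1 := sum_shift N r (h : ZMod (2 ^ r)) (fun y => y ^ 2)
  have h3 := sum_shift N r (h : ZMod (2 ^ r)) (fun y => y)
  have h2 : ∑ w : ZMod (2 ^ r), (2 * μ * (A N r w : ℝ) + 2 * μ * (A N r (w + (h : ZMod (2 ^ r))) : ℝ)
      - 2 * μ ^ 2 - (A N r w : ℝ) ^ 2 / 2 - (A N r (w + (h : ZMod (2 ^ r))) : ℝ) ^ 2 / 2) ≤
      ∑ w : ZMod (2 ^ r), (A N r w : ℝ) * (A N r (w + (h : ZMod (2 ^ r))) : ℝ) := by
    apply sum_le_sum
    intro w _
    nlinarith [sq_nonneg ((A N r w : ℝ) + (A N r (w + (h : ZMod (2 ^ r))) : ℝ) - 2 * μ)]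
  refine le_trans (le_of_eq ?_) h2
  rw [sum_sub_distrib, sum_sub_distrib, sum_sub_distrib, sum_add_distrib, ← mul_sum, ← mul_sum,
    ← sum_div, ← sum_div, h1, h3, sum_A, sum_const, card_univ, ZMod.card, nsmul_eq_mul, hμ]
  unfold S2
  push_cast
  field_simp
  ring

/-- pairs at circle distance at most `δ`, diagonal included -/
noncomputable def RD (N : ℕ) (δ : ℝ) : Finset (ℕ × ℕ) := (Icc 1 N ×ˢ Icc 1 N).filter fun p =>
  nd (xx p.1 - xx p.2) ≤ δ

theorem close_D (l r : ℕ) : |2 ^ r * (2 ^ l * champ) - D (l + r) - 1 / 2| ≤ 1 / 2 := by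
  have h1 := alpha_bounds (l + r)
  have h2 : (2 : ℝ) ^ r * (2 ^ l * champ) = 2 ^ (l + r) * champ := by
    rw [pow_add]; ring
  rw [h2, abs_le]
  constructor <;> linarith [h1.1, h1.2]

theorem RD_upper (N r : ℕ) (δ : ℝ) (hδ : 0 ≤ δ) :
    ((RD N δ).card : ℝ) ≤ (2 * (2 ^ r * δ) + 3) * S2 N r := by
  set H : ℤ := ⌊2 ^ r * δ⌋ + 1 with hH
  have hH0 : 0 ≤ ⌊2 ^ r * δ⌋ := Int.floor_nonneg.mpr (by positivity)
  have h1 : RD N δ ⊆ (Icc (-H) H).biUnion fun h => PP N r h := by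
    intro p hp
    unfold RD at hp
    rw [mem_filter, nd_le_iff] at hp
    obtain ⟨hp1, z, hz⟩ := hp
    rw [mem_biUnion]
    refine ⟨(D (p.1 + r) : ℤ) - D (p.2 + r) - 2 ^ r * z, ?_, ?_⟩
    · have h2 := close_D p.1 r
      have h3 := close_D p.2 r
      have h4 : |2 ^ r * (2 ^ p.1 * champ - 2 ^ p.2 * champ - z)| ≤ 2 ^ r * δ := by
        rw [abs_mul, abs_of_pos (by positivity : (0 : ℝ) < 2 ^ r)]
        gcongr
      rw [abs_le] at h2 h3 h4
      have h5 : (((D (p.1 + r) : ℤ) - D (p.2 + r) - 2 ^ r * z : ℤ) : ℝ) ≤ 2 ^ r * δ + 1 := by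
        push_cast
        nlinarith [h2.1, h2.2, h3.1, h3.2, h4.1, h4.2]
      have h6 : -(2 ^ r * δ + 1) ≤ (((D (p.1 + r) : ℤ) - D (p.2 + r) - 2 ^ r * z : ℤ) : ℝ) := by
        push_cast
        nlinarith [h2.1, h2.2, h3.1, h3.2, h4.1, h4.2]
      rw [mem_Icc]
      constructor
      · have h7 : -((D (p.1 + r) : ℤ) - D (p.2 + r) - 2 ^ r * z) - 1 ≤ ⌊2 ^ r * δ⌋ := by
          rw [Int.le_floor]
          push_cast at h6 ⊢
          linarith
        omega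
      · have h7 : ((D (p.1 + r) : ℤ) - D (p.2 + r) - 2 ^ r * z) - 1 ≤ ⌊2 ^ r * δ⌋ := by
          rw [Int.le_floor]
          push_cast at h5 ⊢
          linarith
        omega
    · unfold PP
      rw [mem_filter]
      refine ⟨hp1, ?_⟩
      push_cast
      have h0 : ((2 : ZMod (2 ^ r))) ^ r = 0 := by
        have := ZMod.natCast_self (2 ^ r)
        push_cast at this
        exact this
      rw [h0]
      ring
  have h2 := card_le_card h1
  have h3 : (((Icc (-H) H).biUnion fun h => PP N r h).card : ℝ) ≤ ∑ h ∈ Icc (-H) H, S2 N r := by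
    calc _ ≤ ((∑ h ∈ Icc (-H) H, (PP N r h).card : ℕ) : ℝ) := by exact_mod_cast card_biUnion_le
      _ = ∑ h ∈ Icc (-H) H, ((PP N r h).card : ℝ) := by push_cast; rfl
      _ ≤ _ := sum_le_sum fun h _ => PP_upper N r h
  have h4 : (((Icc (-H) H).card : ℕ) : ℝ) ≤ 2 * (2 ^ r * δ) + 3 := by
    have h5 : (((Icc (-H) H).card : ℕ) : ℤ) = 2 * ⌊2 ^ r * δ⌋ + 3 := by
      rw [Int.card_Icc, hH]
      omega
    have h6 : (((Icc (-H) H).card : ℕ) : ℝ) = 2 * (⌊2 ^ r * δ⌋ : ℝ) + 3 := by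
      exact_mod_cast h5
    rw [h6]
    have := Int.floor_le (2 ^ r * δ)
    linarith
  have h5 : 0 ≤ S2 N r := sum_nonneg fun w _ => by positivity
  rw [sum_const, nsmul_eq_mul] at h3
  calc ((RD N δ).card : ℝ) ≤ _ := by exact_mod_cast h2
    _ ≤ _ := h3
    _ ≤ _ := mul_le_mul_of_nonneg_right h4 h5

theorem RD_lower (N r : ℕ) (δ : ℝ) (hδ : 0 ≤ δ) (hδ2 : δ ≤ 1 / 2)
    (hpos : 0 ≤ 2 * (N : ℝ) ^ 2 / 2 ^ r - S2 N r) :
    (2 * (2 ^ r * δ) - 3) * (2 * (N : ℝ) ^ 2 / 2 ^ r - S2 N r) ≤ ((RD N δ).card : ℝ) := by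
  set H : ℤ := ⌊2 ^ r * δ⌋ - 1 with hH
  have hH0 : 0 ≤ ⌊2 ^ r * δ⌋ := Int.floor_nonneg.mpr (by positivity)
  have hfl := Int.floor_le (2 ^ r * δ)
  have hp2 : (0 : ℝ) < 2 ^ r := by positivity
  have h1 : (Icc (-H) H).biUnion (fun h => PP N r h) ⊆ RD N δ := by
    intro p hp
    rw [mem_biUnion] at hp
    obtain ⟨h, hh, hp⟩ := hp
    unfold PP at hp
    rw [mem_filter] at hp
    unfold RD
    rw [mem_filter, nd_le_iff]
    refine ⟨hp.1, ?_⟩
    have h2 : (((D (p.1 + r) : ℤ) - D (p.2 + r) - h : ℤ) : ZMod (2 ^ r)) = 0 := by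
      push_cast
      rw [hp.2]
      ring
    rw [ZMod.intCast_zmod_eq_zero_iff_dvd] at h2
    obtain ⟨z, hz⟩ := h2
    refine ⟨z, ?_⟩
    have h3 := close_D p.1 r
    have h4 := close_D p.2 r
    have h5 : (D (p.1 + r) : ℝ) - D (p.2 + r) - h = 2 ^ r * z := by
      have : (((D (p.1 + r) : ℤ) - D (p.2 + r) - h : ℤ) : ℝ) = ((((2 ^ r : ℕ) : ℤ) * z : ℤ) : ℝ) := by
        rw [hz]
      push_cast at this
      exact this
    rw [mem_Icc] at hh
    have h6 : (h : ℝ) ≤ 2 ^ r * δ - 1 := by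
      have : (h : ℝ) ≤ (H : ℝ) := by exact_mod_cast hh.2
      rw [hH] at this
      push_cast at this
      linarith
    have h7 : -(2 ^ r * δ - 1) ≤ (h : ℝ) := by
      have : ((-H : ℤ) : ℝ) ≤ (h : ℝ) := by exact_mod_cast hh.1
      rw [hH] at this
      push_cast at this
      linarith
    have h8 : |2 ^ r * (2 ^ p.1 * champ - 2 ^ p.2 * champ - z)| ≤ 2 ^ r * δ := by
      rw [abs_le] at h3 h4 ⊢
      constructor
      · nlinarith [h3.1, h3.2, h4.1, h4.2]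
      · nlinarith [h3.1, h3.2, h4.1, h4.2]
    rw [abs_mul, abs_of_pos hp2] at h8
    exact le_of_mul_le_mul_left h8 hp2
  have h2 := card_le_card h1
  have hdisj : Set.PairwiseDisjoint (↑(Icc (-H) H) : Set ℤ) (fun h => PP N r h) := by
    intro h hh h' hh' hne
    rw [Function.onFun, disjoint_left]
    intro p hp hp'
    apply hne
    unfold PP at hp hp'
    rw [mem_filter] at hp hp'
    have h3 : ((h - h' : ℤ) : ZMod (2 ^ r)) = 0 := by
      have := hp.2.symm.trans hp'.2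
      push_cast
      rw [sub_eq_zero]
      exact add_left_cancel this
    rw [ZMod.intCast_zmod_eq_zero_iff_dvd] at h3
    rw [coe_Icc, Set.mem_Icc] at hh hh'
    have h4 : |h - h'| < ((2 ^ r : ℕ) : ℤ) := by
      have h5 : (2 * H : ℤ) < 2 ^ r := by
        have : ((2 * H : ℤ) : ℝ) < ((2 ^ r : ℤ) : ℝ) := by
          rw [hH]
          push_cast
          nlinarith
        exact_mod_cast this
      rw [abs_lt]
      push_cast
      constructor <;> linarith [hh.1, hh.2, hh'.1, hh'.2]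
    have h5 := Int.eq_zero_of_abs_lt_dvd h3 h4
    omega
  rw [card_biUnion hdisj] at h2
  have h3 : ∑ h ∈ Icc (-H) H, (2 * (N : ℝ) ^ 2 / 2 ^ r - S2 N r) ≤
      ((∑ h ∈ Icc (-H) H, (PP N r h).card : ℕ) : ℝ) := by
    push_cast
    exact sum_le_sum fun h _ => PP_lower N r h
  rw [sum_const, nsmul_eq_mul] at h3
  have h4 : 2 * (2 ^ r * δ) - 3 ≤ (((Icc (-H) H).card : ℕ) : ℝ) := by
    have h5 : 2 * ⌊2 ^ r * δ⌋ - 1 ≤ (((Icc (-H) H).card : ℕ) : ℤ) := by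
      rw [Int.card_Icc, hH]
      omega
    have h6 : 2 * (⌊2 ^ r * δ⌋ : ℝ) - 1 ≤ (((Icc (-H) H).card : ℕ) : ℝ) := by
      exact_mod_cast h5
    have := Int.lt_floor_add_one (2 ^ r * δ)
    linarith
  calc _ ≤ (((Icc (-H) H).card : ℕ) : ℝ) * (2 * (N : ℝ) ^ 2 / 2 ^ r - S2 N r) :=
        mul_le_mul_of_nonneg_right h4 hpos
    _ ≤ _ := h3
    _ ≤ _ := by exact_mod_cast h2

/-- off-diagonal pairs -/
noncomputable def RR (N : ℕ) (δ : ℝ) : ℕ := ((Icc 1 N ×ˢ Icc 1 N).filter fun p : ℕ × ℕ =>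
  p.1 ≠ p.2 ∧ nd (xx p.1 - xx p.2) ≤ δ).card

theorem RR_add (N : ℕ) (δ : ℝ) (hδ : 0 ≤ δ) : (RR N δ : ℝ) + N = ((RD N δ).card : ℝ) := by
  have h1 : RR N δ + N = (RD N δ).card := by
    have h2 : RD N δ = ((Icc 1 N ×ˢ Icc 1 N).filter fun p : ℕ × ℕ =>
        p.1 ≠ p.2 ∧ nd (xx p.1 - xx p.2) ≤ δ) ∪ (Icc 1 N).image (fun n => (n, n)) := by
      ext p
      unfold RD
      simp only [mem_filter, mem_union, mem_image, mem_product]
      constructor
      · rintro ⟨h3, h4⟩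
        by_cases h5 : p.1 = p.2
        · right
          exact ⟨p.1, h3.1, by ext <;> simp [h5]⟩
        · left
          exact ⟨h3, h5, h4⟩
      · rintro (⟨h3, h4, h5⟩ | ⟨n, h3, h4⟩)
        · exact ⟨h3, h5⟩
        · subst h4
          refine ⟨⟨h3, h3⟩, ?_⟩
          simp only [sub_self]
          unfold nd
          simpa using hδ
    rw [h2, card_union_of_disjoint, card_image_of_injective, Nat.card_Icc, Nat.add_sub_cancel]
    · rfl
    · intro a b h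
      exact (Prod.mk.inj h).1
    · rw [disjoint_left]
      intro p hp hp'
      rw [mem_filter] at hp
      rw [mem_image] at hp'
      obtain ⟨n, _, h4⟩ := hp'
      subst h4
      exact hp.2.1 rfl
  exact_mod_cast h1

end Pool.Agent.Helper9.Champ
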