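import Mathlib
import Pool.Agent.Helper9.Champ5

set_option autoImplicit false

namespace Pool.Agent.Helper9.Champ

open Finset Filter Topology

theorem S2_le_cnt (N r a : ℕ) (ha : N + r ≤ Q a) :
    S2 N r ≤ ∑ w ∈ range (2 ^ r), (cnt a r w : ℝ) ^ 2 := by
  have h1 : ∀ w : ZMod (2 ^ r), A N r w ≤ cnt a r w.val := by
    intro w
    unfold A cnt
    apply card_le_card_of_injOn (fun n => n + r - 1)
    · intro n hn
      rw [coe_filter, Set.mem_ofPred_eq, mem_Icc] at hn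
      rw [coe_filter, Set.mem_ofPred_eq, mem_range]
      have h2 : n + r - 1 + 1 = n + r := by omega
      refine ⟨(by omega : n + r - 1 < Q a), ?_⟩
      rw [h2, ← hn.2, ZMod.val_natCast]
    · intro n hn m hm h
      rw [coe_filter, Set.mem_ofPred_eq, mem_Icc] at hn hm
      simp only at h
      omega
  have h2 : ∑ w : ZMod (2 ^ r), (cnt a r w.val : ℝ) ^ 2 = ∑ w ∈ range (2 ^ r), (cnt a r w : ℝ) ^ 2 := by
    apply sum_bij (fun (w : ZMod (2 ^ r)) _ => w.val)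
    · intro w _
      rw [mem_range]
      exact ZMod.val_lt w
    · intro w _ w' _ h
      exact ZMod.val_injective _ h
    · intro b hb
      rw [mem_range] at hb
      exact ⟨(b : ZMod (2 ^ r)), mem_univ _, by rw [ZMod.val_natCast, Nat.mod_eq_of_lt hb]⟩
    · intro w _
      rfl
  rw [← h2]
  unfold S2
  apply sum_le_sum
  intro w _
  have : (A N r w : ℝ) ≤ (cnt a r w.val : ℝ) := by exact_mod_cast h1 w
  gcongr

theorem Q_add_ge (s b m : ℕ) (h : 2 ^ s ≤ b + 1) : Q b + m * (s + 1) ≤ Q (b + m) := by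
  induction m with
  | zero => simp
  | succ n ih =>
    have h1 : Q (b + (n + 1)) = Q (b + n) + Nat.size (b + n + 1) := Q_succ (b + n)
    have h2 : s < Nat.size (b + n + 1) := Nat.lt_size.mpr (by omega)
    rw [h1, add_mul]
    omega

theorem Q_lower (j : ℕ) : 2 ^ j * (j + 1) ≤ Q (2 ^ (j + 1) - 1) := by
  have hp : 0 < 2 ^ j := by positivity
  have h1 := Q_add_ge j (2 ^ j - 1) (2 ^ j) (by omega)
  have h2 : 2 ^ j - 1 + 2 ^ j = 2 ^ (j + 1) - 1 := by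
    rw [pow_succ]; omega
  rw [h2] at h1
  omega

theorem Q_upper (a k : ℕ) (ha : a < 2 ^ k) : Q a ≤ a * k := by
  induction a with
  | zero => simp [Q_zero]
  | succ n ih =>
    have h1 := ih (by omega)
    have h2 : Nat.size (n + 1) ≤ k := Nat.size_le.mpr ha
    rw [Q_succ, add_mul]
    omega

/-- choice of the block in which position `N + r` lies -/
theorem exists_block (N r : ℕ) (hN : 1 ≤ N) : ∃ a k : ℕ, a < 2 ^ k ∧ N + r ≤ Q a ∧ Q a ≤ N + r + k ∧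
    N ≤ 2 ^ k * k ∧ (2 ≤ k → (k - 1) * 2 ^ k ≤ 4 * (N + r)) := by
  have hex : ∃ a, N + r ≤ Q a := ⟨N + r, le_Q _⟩
  classical
  obtain ⟨a, ha, hmin⟩ : ∃ a, N + r ≤ Q a ∧ ∀ b < a, ¬ N + r ≤ Q b :=
    ⟨Nat.find hex, Nat.find_spec hex, fun b hb => Nat.find_min hex hb⟩
  have ha0 : a ≠ 0 := by
    rintro rfl
    rw [Q_zero] at ha
    omega
  obtain ⟨b, rfl⟩ := Nat.exists_eq_succ_of_ne_zero ha0
  have hb := hmin b (Nat.lt_succ_self b)
  rw [Nat.succ_eq_add_one] at ha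
  refine ⟨b + 1, Nat.size (b + 1), Nat.lt_size_self _, ha, ?_, ?_, ?_⟩
  · rw [Q_succ]
    omega
  · have h1 := Q_upper (b + 1) _ (Nat.lt_size_self (b + 1))
    have h2 := Nat.lt_size_self (b + 1)
    have h3 : (b + 1) * Nat.size (b + 1) ≤ 2 ^ Nat.size (b + 1) * Nat.size (b + 1) :=
      Nat.mul_le_mul_right _ h2.le
    omega
  · intro hk
    obtain ⟨j, hj⟩ : ∃ j, Nat.size (b + 1) = j + 2 := ⟨Nat.size (b + 1) - 2, by omega⟩
    rw [hj]
    have h1 : 2 ^ (j + 1) ≤ b + 1 := Nat.lt_size.mp (by omega)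
    have h2 := Q_mono (show 2 ^ (j + 1) - 1 ≤ b by omega)
    have h3 := Q_lower j
    have h4 : j + 2 - 1 = j + 1 := by omega
    rw [h4, pow_succ, pow_succ]
    have h5 : (j + 1) * (2 ^ j * 2 * 2) = 4 * (2 ^ j * (j + 1)) := by ring
    rw [h5]
    omega

theorem S2_explicit (N r : ℕ) (hN : 1 ≤ N) (hr : 1 ≤ r) : ∃ k : ℕ,
    2 ^ r * S2 N r ≤ ((N : ℝ) + r + k + 2 ^ (k + 2) + (k : ℝ) ^ 2 * 2 ^ r) ^ 2 + 16 * r * 4 ^ k ∧
    N ≤ 2 ^ k * k ∧ (2 ≤ k → (k - 1) * 2 ^ k ≤ 4 * (N + r)) := by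
  obtain ⟨a, k, h1, h2, h3, h4, h5⟩ := exists_block N r hN
  refine ⟨k, ?_, h4, h5⟩
  have h6 := S2_le_cnt N r a h2
  have h7 := L2 a r k h1 hr
  have h8 : (2 : ℝ) ^ r * S2 N r ≤ 2 ^ r * ∑ w ∈ range (2 ^ r), (cnt a r w : ℝ) ^ 2 := by
    gcongr
  refine (h8.trans h7).trans ?_
  have h9 : (Q a : ℝ) ≤ (N : ℝ) + r + k := by exact_mod_cast h3
  gcongr

theorem log_fact (β C η : ℝ) (hβ : β < 1) (hη : 0 < η) :
    ∀ᶠ N : ℕ in atTop, (Real.log (8 * N) / Real.log 2) ^ 2 * (C * (N : ℝ) ^ β) ≤ η * N := by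
  have h1 : Tendsto (fun x : ℝ => (Real.log (8 * x) / Real.log 2) ^ 2 * (C * x ^ β) / x) atTop (𝓝 0) := by
    have h2 : (fun x : ℝ => Real.log x ^ 2) =o[atTop] fun x => x ^ (1 - β) := by
      have h3 := isLittleO_log_rpow_rpow_atTop (s := 1 - β) 2 (by linarith)
      refine h3.congr' ?_ EventuallyEq.rfl
      filter_upwards with x
      norm_cast
    have h4 : Tendsto (fun x : ℝ => 8 * x) atTop atTop := tendsto_id.const_mul_atTop (by norm_num)
    have h5 := h2.comp_tendsto h4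
    have h6 := h5.tendsto_div_nhds_zero
    have h7 := h6.const_mul (C * 8 ^ (1 - β) / Real.log 2 ^ 2)
    rw [mul_zero] at h7
    refine h7.congr' ?_
    filter_upwards [eventually_gt_atTop 0] with x hx
    simp only [Function.comp]
    rw [Real.mul_rpow (by norm_num) hx.le, Real.rpow_sub hx, Real.rpow_one, Real.rpow_sub (by norm_num), Real.rpow_one]
    have h8 : (0 : ℝ) < 8 ^ β := by positivity
    have h9 : (0 : ℝ) < x ^ β := by positivity
    have h10 : (0 : ℝ) < Real.log 2 := Real.log_pos (by norm_num)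
    field_simp
  have h2 := (h1.comp tendsto_natCast_atTop_atTop).eventually (gt_mem_nhds hη)
  filter_upwards [h2, eventually_gt_atTop 0] with N h3 h4
  simp only [Function.comp] at h3
  have h5 : (0 : ℝ) < N := by exact_mod_cast h4
  rw [div_lt_iff₀ h5] at h3
  exact h3.le

/-- main asymptotic statement -/
theorem S2_asymp (β C ε : ℝ) (hβ : β < 1) (hC : 0 < C) (hε : 0 < ε) :
    ∀ᶠ N : ℕ in atTop, ∀ r : ℕ, 1 ≤ r → (2 : ℝ) ^ r ≤ C * (N : ℝ) ^ β →
      2 ^ r * S2 N r ≤ (1 + ε) * (N : ℝ) ^ 2 := by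
  set η : ℝ := min 1 ε / 25 with hη
  have hη0 : 0 < η := by positivity
  have hη1 : η ≤ 1 / 25 := by
    rw [hη]; gcongr; exact min_le_left _ _
  have hη2 : 25 * η ≤ ε := by
    rw [hη]
    have := min_le_right 1 ε
    linarith
  obtain ⟨K0, hK0⟩ := exists_nat_gt (4096 / η)
  have e1 := log_fact β C η hβ hη0
  have e2 : ∀ᶠ N : ℕ in atTop, 4 ^ (K0 + 2) < N := eventually_gt_atTop _
  filter_upwards [e1, e2, eventually_ge_atTop 1] with N h1 h2 h3 r hr hrC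
  obtain ⟨k, hk1, hk2, hk3⟩ := S2_explicit N r h3 hr
  have hN : (1 : ℝ) ≤ N := by exact_mod_cast h3
  have hN0 : (0 : ℝ) < N := by linarith
  -- k is large
  have hkK : K0 + 2 ≤ k := by
    by_contra hcon
    push Not at hcon
    have h4 : 2 ^ k * k ≤ 2 ^ (K0 + 2) * 2 ^ (K0 + 2) := by
      apply Nat.mul_le_mul
      · exact Nat.pow_le_pow_right (by norm_num) hcon.le
      · exact (hcon.le).trans (Nat.lt_two_pow_self).le
    have h5 : 2 ^ (K0 + 2) * 2 ^ (K0 + 2) = 4 ^ (K0 + 2) := by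
      rw [← mul_pow]
      norm_num
    omega
  have hk2' : 2 ≤ k := by omega
  have hk3' := hk3 hk2'
  -- log lower bound
  have hlog2 : (0 : ℝ) < Real.log 2 := Real.log_pos (by norm_num)
  have hL1 : 1 ≤ (Real.log (8 * N) / Real.log 2) ^ 2 := by
    have h4 : 1 ≤ Real.log (8 * N) / Real.log 2 := by
      rw [le_div_iff₀ hlog2, one_mul]
      apply Real.log_le_log (by norm_num)
      linarith
    nlinarith
  have hCN0 : 0 < C * (N : ℝ) ^ β := by positivity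
  have hCN : C * (N : ℝ) ^ β ≤ η * N := le_trans (le_mul_of_one_le_left hCN0.le hL1) h1
  have hrN : (r : ℝ) ≤ η * N := by
    have h4 : (r : ℝ) ≤ 2 ^ r := by exact_mod_cast (Nat.lt_two_pow_self (n := r)).le
    linarith
  have hk4 : ((k : ℝ) - 1) * 2 ^ k ≤ 8 * N := by
    have h4 : (((k - 1) * 2 ^ k : ℕ) : ℝ) ≤ ((4 * (N + r) : ℕ) : ℝ) := by exact_mod_cast hk3'
    push_cast at h4
    rw [Nat.cast_sub (by omega)] at h4
    push_cast at h4
    have h5 := mul_le_mul_of_nonneg_right hη1 hN0.le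
    linarith
  have hkR : (K0 : ℝ) + 2 ≤ k := by exact_mod_cast hkK
  have hK0pos : (0 : ℝ) ≤ K0 := by positivity
  have hpk : (0 : ℝ) < 2 ^ k := by positivity
  have hk5 : (2 : ℝ) ^ k ≤ 8 * N :=
    le_trans (le_mul_of_one_le_left hpk.le (by linarith)) hk4
  have hk6 : (k : ℝ) ≤ Real.log (8 * N) / Real.log 2 := by
    rw [le_div_iff₀ hlog2]
    have := Real.log_le_log hpk hk5
    rwa [Real.log_pow] at this
  have hkpos : (0 : ℝ) < k := by linarith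
  have hk7 : (k : ℝ) ^ 2 * 2 ^ r ≤ η * N := by
    calc (k : ℝ) ^ 2 * 2 ^ r ≤ (Real.log (8 * N) / Real.log 2) ^ 2 * (C * (N : ℝ) ^ β) := by gcongr
      _ ≤ _ := h1
  have hpr : (1 : ℝ) ≤ 2 ^ r := one_le_pow₀ (by norm_num)
  have hk8 : (k : ℝ) ≤ η * N := by
    have h6 : (k : ℝ) ≤ (k : ℝ) ^ 2 := le_self_pow₀ (by linarith) (by norm_num)
    have h7 : (k : ℝ) ^ 2 ≤ (k : ℝ) ^ 2 * 2 ^ r := le_mul_of_one_le_right (by positivity) hpr
    linarith
  have hKη : 4096 < η * (k - 1) := by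
    rw [div_lt_iff₀ hη0] at hK0
    have h6 : (K0 : ℝ) * η ≤ (k - 1) * η := by gcongr; linarith
    linarith
  have hk9 : (2 : ℝ) ^ (k + 2) ≤ η * N := by
    have h4 : (2 : ℝ) ^ (k + 2) = 4 * 2 ^ k := by ring
    rw [h4]
    have h5 : 4096 * 2 ^ k ≤ η * (8 * N) := by
      calc 4096 * (2 : ℝ) ^ k ≤ η * (k - 1) * 2 ^ k := by gcongr
        _ = η * ((k - 1) * 2 ^ k) := by ring
        _ ≤ _ := by gcongr
    linarith
  have hrk : r < k := by
    by_contra hcon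
    push Not at hcon
    have h4 : (2 : ℝ) ^ k ≤ 2 ^ r := pow_le_pow_right₀ (by norm_num) hcon
    have h5 : (N : ℝ) ≤ 2 ^ k * k := by exact_mod_cast hk2
    have h6 : (k : ℝ) ≤ (k : ℝ) ^ 2 := le_self_pow₀ (by linarith) (by norm_num)
    have h7 : (N : ℝ) ≤ (k : ℝ) ^ 2 * 2 ^ r := by
      calc (N : ℝ) ≤ 2 ^ k * k := h5
        _ ≤ 2 ^ r * (k : ℝ) ^ 2 := by gcongr
        _ = _ := by ring
    have h8 := mul_le_mul_of_nonneg_right hη1 hN0.le
    linarith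
  have hk10 : 16 * (r : ℝ) * 4 ^ k ≤ η * (N : ℝ) ^ 2 := by
    have h4 : (4 : ℝ) ^ k = 2 ^ k * 2 ^ k := by
      rw [← mul_pow]; norm_num
    have h5 : (r : ℝ) ≤ 2 * (k - 1) := by
      have : (r : ℝ) ≤ k := by exact_mod_cast hrk.le
      linarith
    have hk1 : (0 : ℝ) < (k : ℝ) - 1 := by linarith
    have h6 : 16 * (r : ℝ) * 4 ^ k ≤ 32 * ((k - 1) * 2 ^ k) * 2 ^ k := by
      rw [h4]
      have : 16 * (r : ℝ) * (2 ^ k * 2 ^ k) ≤ 16 * (2 * (k - 1)) * (2 ^ k * 2 ^ k) := by gcongr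
      linarith
    have h7 : 32 * (((k : ℝ) - 1) * 2 ^ k) * 2 ^ k ≤ 32 * (8 * N) * 2 ^ k := by gcongr
    have h8 : 4096 * 2 ^ k ≤ η * (8 * N) := by
      calc 4096 * (2 : ℝ) ^ k ≤ η * (k - 1) * 2 ^ k := by gcongr
        _ = η * ((k - 1) * 2 ^ k) := by ring
        _ ≤ _ := by gcongr
    have h9 : 32 * (8 * (N : ℝ)) * 2 ^ k ≤ η * (N : ℝ) ^ 2 := by
      have h10 := mul_le_mul_of_nonneg_left h8 hN0.le
      have h11 : 0 ≤ η * (N : ℝ) ^ 2 := by positivity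
      linarith
    linarith
  refine hk1.trans ?_
  have h4 : (N : ℝ) + r + k + 2 ^ (k + 2) + (k : ℝ) ^ 2 * 2 ^ r ≤ (1 + 4 * η) * N := by linarith
  have h5 : ((N : ℝ) + r + k + 2 ^ (k + 2) + (k : ℝ) ^ 2 * 2 ^ r) ^ 2 ≤ ((1 + 4 * η) * N) ^ 2 := by
    gcongr
  have h6 : ((1 + 4 * η) * (N : ℝ)) ^ 2 + η * (N : ℝ) ^ 2 ≤ (1 + ε) * (N : ℝ) ^ 2 := by
    have h7 : ((1 + 4 * η) * (N : ℝ)) ^ 2 + η * (N : ℝ) ^ 2 = (1 + 9 * η + 16 * η ^ 2) * (N : ℝ) ^ 2 := by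
      ring
    rw [h7]
    have h8 : η ^ 2 ≤ η := by
      rw [sq]
      exact mul_le_of_le_one_right hη0.le (by linarith)
    apply mul_le_mul_of_nonneg_right _ (by positivity)
    linarith
  linarith

end Pool.Agent.Helper9.Champ
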