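import Mathlib
import Pool.Agent.Helper9.Champ6

set_option autoImplicit false

namespace Pool.Agent.Helper9.Champ

open Finset Filter Topology

theorem two_sided (β s η : ℝ) (hβ0 : 0 < β) (hβ : β < 1) (hs : 0 < s) (hη : 0 < η) (hη2 : η ≤ 1 / 2) :
    ∀ᶠ N : ℕ in atTop,
      (N : ℝ) ^ (β - 2) * ((RD N (s * (N : ℝ) ^ (-β))).card : ℝ) ≤ (2 + η) * (1 + η) * s ∧
      (2 - η) * (1 - η) * s ≤ (N : ℝ) ^ (β - 2) * ((RD N (s * (N : ℝ) ^ (-β))).card : ℝ) := by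
  set M : ℝ := 6 / η with hM
  have hM12 : 12 ≤ M := by
    rw [hM, le_div_iff₀ hη]; linarith
  have e1 := S2_asymp β (M / s) η hβ (by positivity) hη
  have e2 : ∀ᶠ N : ℕ in atTop, s * (N : ℝ) ^ (-β) < 1 / 2 := by
    have h1 := (tendsto_rpow_neg_atTop hβ0).comp tendsto_natCast_atTop_atTop
    have h2 := h1.const_mul s
    rw [mul_zero] at h2
    exact h2.eventually (gt_mem_nhds (by norm_num))
  filter_upwards [e1, e2, eventually_ge_atTop 1] with N h1 h2 h3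
  have hN : (0 : ℝ) < N := by exact_mod_cast h3
  set δ : ℝ := s * (N : ℝ) ^ (-β) with hδ
  have hδ0 : 0 < δ := by positivity
  have hNβ : (N : ℝ) ^ β * δ = s := by
    rw [hδ, mul_comm s, ← mul_assoc, ← Real.rpow_add hN]
    simp
  have hx : 24 ≤ M / δ := by
    rw [le_div_iff₀ hδ0]; linarith
  obtain ⟨r, hr1, hr2⟩ := exists_nat_pow_near (by linarith : (1 : ℝ) ≤ M / δ) (by norm_num : (1 : ℝ) < 2)
  have hr : 1 ≤ r := by
    by_contra hcon
    have : r = 0 := by omega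
    subst this
    norm_num at hr2
    linarith
  have hrC : (2 : ℝ) ^ r ≤ M / s * (N : ℝ) ^ β := by
    refine hr1.trans (le_of_eq ?_)
    rw [div_mul_eq_mul_div, div_eq_div_iff hδ0.ne' hs.ne', mul_assoc, hNβ]
  have h4 := h1 r hr hrC
  set y : ℝ := 2 ^ r * δ with hy
  have hp : (0 : ℝ) < 2 ^ r := by positivity
  have hy1 : M / 2 < y := by
    rw [pow_succ, div_lt_iff₀ hδ0] at hr2
    linarith
  have hy0 : 0 < y := by positivity
  have hy3 : 3 ≤ η * y := by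
    have h5 : η * (M / 2) = 3 := by rw [hM]; field_simp; norm_num
    have h6 : η * (M / 2) ≤ η * y := by gcongr
    linarith
  have hpow : (N : ℝ) ^ (β - 2) * (N : ℝ) ^ 2 = (N : ℝ) ^ β := by
    rw [← Real.rpow_natCast, ← Real.rpow_add hN]
    congr 1
    push_cast
    ring
  have hpos : 0 < (N : ℝ) ^ (β - 2) := by positivity
  have hS0 : 0 ≤ S2 N r := sum_nonneg fun w _ => by positivity
  constructor
  · have h5 := RD_upper N r δ hδ0.le
    have h6 : y * ((N : ℝ) ^ (β - 2) * ((RD N δ).card : ℝ)) ≤ y * ((2 + η) * (1 + η) * s) := by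
      calc y * ((N : ℝ) ^ (β - 2) * ((RD N δ).card : ℝ)) ≤
          y * ((N : ℝ) ^ (β - 2) * ((2 * y + 3) * S2 N r)) := by gcongr
        _ = (N : ℝ) ^ (β - 2) * (2 * y + 3) * δ * (2 ^ r * S2 N r) := by rw [hy]; ring
        _ ≤ (N : ℝ) ^ (β - 2) * (2 * y + 3) * δ * ((1 + η) * (N : ℝ) ^ 2) := by gcongr
        _ = (2 * y + 3) * (1 + η) * (((N : ℝ) ^ (β - 2) * (N : ℝ) ^ 2) * δ) := by ring
        _ = (2 * y + 3) * (1 + η) * s := by rw [hpow, hNβ]
        _ ≤ (2 * y + η * y) * (1 + η) * s := by gcongr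
        _ = _ := by ring
    exact le_of_mul_le_mul_left h6 hy0
  · have hnn : 0 ≤ 2 * (N : ℝ) ^ 2 / 2 ^ r - S2 N r := by
      rw [sub_nonneg, le_div_iff₀ hp, mul_comm]
      refine h4.trans ?_
      gcongr
      linarith
    have h5 := RD_lower N r δ hδ0.le h2.le hnn
    have hy4 : 0 ≤ 2 * y - 3 := by linarith
    have h6 : y * ((2 - η) * (1 - η) * s) ≤ y * ((N : ℝ) ^ (β - 2) * ((RD N δ).card : ℝ)) := by
      calc y * ((2 - η) * (1 - η) * s) = (2 * y - η * y) * (1 - η) * s := by ring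
        _ ≤ (2 * y - 3) * (1 - η) * s := by
            apply mul_le_mul_of_nonneg_right _ hs.le
            apply mul_le_mul_of_nonneg_right _ (by linarith)
            linarith
        _ = (2 * y - 3) * (1 - η) * (((N : ℝ) ^ (β - 2) * (N : ℝ) ^ 2) * δ) := by rw [hpow, hNβ]
        _ = (N : ℝ) ^ (β - 2) * (2 * y - 3) * δ * (2 * (N : ℝ) ^ 2 - (1 + η) * (N : ℝ) ^ 2) := by ring
        _ ≤ (N : ℝ) ^ (β - 2) * (2 * y - 3) * δ * (2 * (N : ℝ) ^ 2 - 2 ^ r * S2 N r) := by gcongr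
        _ = y * ((N : ℝ) ^ (β - 2) * ((2 * y - 3) * (2 * (N : ℝ) ^ 2 / 2 ^ r - S2 N r))) := by
            rw [hy]
            field_simp
        _ ≤ _ := by gcongr
    exact le_of_mul_le_mul_left h6 hy0

theorem main_pos (β s : ℝ) (hβ0 : 0 < β) (hβ : β < 1) (hs : 0 < s) :
    Tendsto (fun N : ℕ => (N : ℝ) ^ (β - 2) * (RR N (s * (N : ℝ) ^ (-β)) : ℝ)) atTop (𝓝 (2 * s)) := by
  rw [Metric.tendsto_atTop']
  intro ε hε
  set η : ℝ := min (1 / 2) (ε / (4 * s + 2)) with hη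
  have hη0 : 0 < η := by positivity
  have hη1 : η ≤ 1 / 2 := min_le_left _ _
  have hη2 : η * (4 * s + 2) ≤ ε := by
    rw [← le_div_iff₀ (by positivity)]
    exact min_le_right _ _
  have e1 := two_sided β s η hβ0 hβ hs hη0 hη1
  have e2 : ∀ᶠ N : ℕ in atTop, (N : ℝ) ^ (-(1 - β)) < η := by
    have h1 := (tendsto_rpow_neg_atTop (by linarith : 0 < 1 - β)).comp tendsto_natCast_atTop_atTop
    exact h1.eventually (gt_mem_nhds hη0)
  obtain ⟨N0, hN0⟩ := eventually_atTop.mp (e1.and (e2.and (eventually_ge_atTop 1)))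
  refine ⟨N0, fun N hN => ?_⟩
  obtain ⟨⟨h1, h2⟩, h3, h4⟩ := hN0 N hN.le
  have hNp : (0 : ℝ) < N := by exact_mod_cast h4
  have h5 := RR_add N (s * (N : ℝ) ^ (-β)) (by positivity)
  rw [← h5] at h1 h2
  have h6 : (N : ℝ) ^ (β - 2) * ((RR N (s * (N : ℝ) ^ (-β)) : ℝ) + N) =
      (N : ℝ) ^ (β - 2) * (RR N (s * (N : ℝ) ^ (-β)) : ℝ) + (N : ℝ) ^ (-(1 - β)) := by
    rw [mul_add]
    congr 1
    have h7 := Real.rpow_add_one hNp.ne' (β - 2)
    rw [← h7]
    congr 1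
    ring
  rw [h6] at h1 h2
  have h7 : 0 < (N : ℝ) ^ (-(1 - β)) := by positivity
  rw [Real.dist_eq, abs_lt]
  have h8 : η ^ 2 ≤ η := by
    rw [sq]
    exact mul_le_of_le_one_right hη0.le (by linarith)
  have h9 : (2 + η) * (1 + η) * s ≤ 2 * s + 4 * s * η := by nlinarith
  have h10 : 2 * s - 4 * s * η ≤ (2 - η) * (1 - η) * s := by nlinarith [sq_nonneg η, mul_pos hη0 hs]
  constructor
  · linarith
  · linarith

theorem RR_mono (N : ℕ) {δ δ' : ℝ} (h : δ ≤ δ') : RR N δ ≤ RR N δ' := by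
  unfold RR
  apply card_le_card
  intro p hp
  rw [mem_filter] at hp ⊢
  exact ⟨hp.1, hp.2.1, hp.2.2.trans h⟩

theorem main (β s : ℝ) (hβ0 : 0 < β) (hβ : β < 1) (hs : 0 ≤ s) :
    Tendsto (fun N : ℕ => (N : ℝ) ^ (β - 2) * (RR N (s * (N : ℝ) ^ (-β)) : ℝ)) atTop (𝓝 (2 * s)) := by
  rcases hs.lt_or_eq with h | h
  · exact main_pos β s hβ0 hβ h
  · subst h
    rw [mul_zero, Metric.tendsto_atTop']
    intro ε hε
    have h1 := main_pos β (ε / 4) hβ0 hβ (by positivity)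
    have h2 := h1.eventually (gt_mem_nhds (by linarith : 2 * (ε / 4) < ε))
    obtain ⟨N0, hN0⟩ := eventually_atTop.mp h2
    refine ⟨N0, fun N hN => ?_⟩
    have h3 := hN0 N hN.le
    rw [Real.dist_eq, sub_zero, abs_of_nonneg (by positivity)]
    refine lt_of_le_of_lt ?_ h3
    have h4 : RR N (0 * (N : ℝ) ^ (-β)) ≤ RR N (ε / 4 * (N : ℝ) ^ (-β)) := by
      apply RR_mono
      rw [zero_mul]
      positivity
    have h5 : (RR N (0 * (N : ℝ) ^ (-β)) : ℝ) ≤ (RR N (ε / 4 * (N : ℝ) ^ (-β)) : ℝ) := by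
      exact_mod_cast h4
    gcongr

end Pool.Agent.Helper9.Champ
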