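import Mathlib

set_option autoImplicit false

namespace Pool.Agent.Helper9.Hall

/-- the key algebraic identity -/
theorem key_identity (X Y N : ℤ) :
    (32 * Y ^ 2 - 27 * X ^ 3 - 24 * N * X * Y + 45 * N ^ 2 * X ^ 2 - 40 * N ^ 3 * Y +
      15 * N ^ 4 * X - N ^ 6) *
    (32 * Y ^ 2 - 27 * X ^ 3 + 24 * N * X * Y + 45 * N ^ 2 * X ^ 2 + 40 * N ^ 3 * Y +
      15 * N ^ 4 * X - N ^ 6) =
    (X - N ^ 2) ^ 5 * (25 * X - N ^ 2) +
      (X - N ^ 2) * (Y ^ 2 - X ^ 3) * (320 * X ^ 2 + 2624 * N ^ 2 * X + 1664 * N ^ 4) +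
      1024 * (Y ^ 2 - X ^ 3) ^ 2 := by
  ring

/-- the auxiliary form does not vanish -/
theorem aux_ne_zero (X Y N : ℤ) (hN : 1 ≤ N) (ha : X - N ^ 2 ≠ 0) (hlt : |X - N ^ 2| < N) :
    32 * Y ^ 2 - 27 * X ^ 3 - 24 * N * X * Y + 45 * N ^ 2 * X ^ 2 - 40 * N ^ 3 * Y +
      15 * N ^ 4 * X - N ^ 6 ≠ 0 := by
  intro h
  set a := X - N ^ 2 with hadef
  have hX : X = N ^ 2 + a := by rw [hadef]; ring
  have h1 : (8 * (2 * (Y - N ^ 3) - 3 * N * a) + 18 * N * a) ^ 2 =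
      (6 * a) ^ 2 * (9 * N ^ 2 + 6 * a) := by
    rw [hX] at h
    linear_combination 8 * h
  have h2 : (6 * a) ^ 2 ∣ (8 * (2 * (Y - N ^ 3) - 3 * N * a) + 18 * N * a) ^ 2 := ⟨_, h1⟩
  rw [Int.pow_dvd_pow_iff (by norm_num)] at h2
  obtain ⟨s, hs⟩ := h2
  rw [hs] at h1
  have h3 : s ^ 2 = 9 * N ^ 2 + 6 * a := by
    have h4 : (6 * a) ^ 2 ≠ 0 := pow_ne_zero 2 (by simpa using ha)
    have h5 : (6 * a) ^ 2 * s ^ 2 = (6 * a) ^ 2 * (9 * N ^ 2 + 6 * a) := by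
      rw [← h1]; ring
    exact mul_left_cancel₀ h4 h5
  rw [abs_lt] at hlt
  have h6 : |s| < 3 * N + 1 := by
    apply abs_lt_of_sq_lt_sq _ (by linarith)
    nlinarith [hlt.2]
  have h7 : 3 * N - 1 < |s| := by
    have : (3 * N - 1) ^ 2 < |s| ^ 2 := by
      rw [sq_abs]
      nlinarith [hlt.1]
    exact lt_of_pow_lt_pow_left₀ 2 (abs_nonneg s) this
  have h8 : |s| = 3 * N := by omega
  have h9 : s ^ 2 = (3 * N) ^ 2 := by rw [← h8, sq_abs]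
  apply ha
  nlinarith

/-- core inequality after scaling, `a ≠ 0` -/
theorem core (X Y N : ℤ) (hN : 1 ≤ N) (hX : 1 ≤ X) (hY : 0 ≤ Y) (ha : X - N ^ 2 ≠ 0)
    (hnear : 2 * |X - N ^ 2| ^ 5 ≤ N ^ 4) (hD : Y ^ 2 ≠ X ^ 3) :
    X ≤ 400 * (|X - N ^ 2| * |Y ^ 2 - X ^ 3|) := by
  by_contra hcon
  push Not at hcon
  set a := X - N ^ 2 with hadef
  have hXa : X = N ^ 2 + a := by rw [hadef]; ring
  have ha1 : 1 ≤ |a| := Int.one_le_abs ha
  have hlt : |a| < N := by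
    by_contra h
    push Not at h
    have h1 : N ^ 4 ≤ |a| ^ 4 := by gcongr
    have h2 : |a| ^ 5 = |a| ^ 4 * |a| := by ring
    have h3 : 1 ≤ |a| ^ 4 := one_le_pow₀ ha1
    nlinarith
  have hN2 : 2 ≤ N := by linarith
  -- |a| ≤ N^2/4
  have ha4 : 4 * |a| ≤ N ^ 2 := by
    by_contra h
    push Not at h
    rcases lt_or_ge N 4 with h4 | h4
    · interval_cases N
      · have : |a| = 1 := by omega
        omega
      · have : |a| ≤ 2 := by omega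
        omega
    · nlinarith
  set D := Y ^ 2 - X ^ 3 with hDdef
  have hD0 : D ≠ 0 := sub_ne_zero.mpr hD
  have hD1 : 1 ≤ |D| := Int.one_le_abs hD0
  have hE := aux_ne_zero X Y N hN ha hlt
  have hid := key_identity X Y N
  rw [← hadef, ← hDdef] at hid
  set E := 32 * Y ^ 2 - 27 * X ^ 3 - 24 * N * X * Y + 45 * N ^ 2 * X ^ 2 - 40 * N ^ 3 * Y +
      15 * N ^ 4 * X - N ^ 6 with hEdef
  set E' := 32 * Y ^ 2 - 27 * X ^ 3 + 24 * N * X * Y + 45 * N ^ 2 * X ^ 2 + 40 * N ^ 3 * Y +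
      15 * N ^ 4 * X - N ^ 6 with hE'def
  have hE1 : 1 ≤ |E| := Int.one_le_abs hE
  obtain ⟨M, hM⟩ : ∃ M, M = N ^ 2 := ⟨_, rfl⟩
  have hM4 : 4 ≤ M := by rw [hM]; nlinarith
  have hN4 : N ^ 4 = M ^ 2 := by rw [hM]; ring
  have hN6 : N ^ 6 = M ^ 3 := by rw [hM]; ring
  have ha2 := abs_le.mp (le_refl |a|)
  have hX1 : 3 * M ≤ 4 * X := by rw [hXa, hM]; linarith [ha2.1]
  have hX2 : 4 * X ≤ 5 * M := by rw [hXa, hM]; linarith [ha2.2]
  have hDa : 400 * |D| < X := by nlinarith [abs_nonneg D]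
  -- lower bound for the conjugate form
  have hP : 37 * M ^ 3 ≤ 5 * X ^ 3 + 45 * M * X ^ 2 + 15 * M ^ 2 * X - M ^ 3 := by
    have h1 : (3 * M) ^ 2 ≤ (4 * X) ^ 2 := by gcongr
    have h2 : (3 * M) ^ 3 ≤ (4 * X) ^ 3 := by gcongr
    have h3 : M * (3 * M) ^ 2 ≤ M * (4 * X) ^ 2 := by gcongr
    have h4 : M ^ 2 * (3 * M) ≤ M ^ 2 * (4 * X) := by gcongr
    have h5 : 0 ≤ M ^ 3 := by positivity
    nlinarith
  have hE'lo : 37 * M ^ 3 - 32 * |D| ≤ E' := by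
    have h1 : E' = (5 * X ^ 3 + 45 * M * X ^ 2 + 15 * M ^ 2 * X - M ^ 3) + 32 * D +
        (24 * N * X * Y + 40 * N ^ 3 * Y) := by
      rw [hE'def, hDdef, hM]; ring
    have h2 : 0 ≤ 24 * N * X * Y + 40 * N ^ 3 * Y := by positivity
    have h3 := neg_abs_le D
    linarith
  have hMpos : 0 < M := by linarith
  have hM1 : M ≤ M ^ 3 := le_self_pow₀ (by linarith) (by norm_num)
  have hDM : 320 * |D| < M := by linarith
  have hE'pos : 0 < E' := by linarith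
  have hlow : E' ≤ |E * E'| := by
    rw [abs_mul, abs_of_pos hE'pos]
    exact le_mul_of_one_le_left hE'pos.le hE1
  -- upper bound
  have hup1 : |a ^ 5 * (25 * X - N ^ 2)| * 8 ≤ 121 * M ^ 3 := by
    have h1 : |25 * X - N ^ 2| * 4 ≤ 121 * M := by
      rw [← hM, abs_of_nonneg (by linarith)]
      linarith
    have h2 : 2 * |a| ^ 5 ≤ M ^ 2 := by rw [← hN4]; exact hnear
    rw [abs_mul, abs_pow]
    calc |a| ^ 5 * |25 * X - N ^ 2| * 8 = (2 * |a| ^ 5) * (|25 * X - N ^ 2| * 4) := by ring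
      _ ≤ M ^ 2 * (121 * M) := by gcongr
      _ = 121 * M ^ 3 := by ring
  have hup2 : |a * D * (320 * X ^ 2 + 2624 * N ^ 2 * X + 1664 * N ^ 4)| * 1600 ≤ 27220 * M ^ 3 := by
    have h1 : |320 * X ^ 2 + 2624 * N ^ 2 * X + 1664 * N ^ 4| ≤ 5444 * M ^ 2 := by
      rw [abs_of_nonneg (by positivity), ← hM, hN4]
      have h3 : (4 * X) ^ 2 ≤ (5 * M) ^ 2 := by gcongr
      have h4 : M * (4 * X) ≤ M * (5 * M) := by gcongr
      nlinarith
    have h2 : |a * D| * 1600 ≤ 5 * M := by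
      rw [abs_mul]
      linarith
    rw [abs_mul]
    calc |a * D| * |320 * X ^ 2 + 2624 * N ^ 2 * X + 1664 * N ^ 4| * 1600 =
        (|a * D| * 1600) * |320 * X ^ 2 + 2624 * N ^ 2 * X + 1664 * N ^ 4| := by ring
      _ ≤ (5 * M) * (5444 * M ^ 2) := by gcongr
      _ = 27220 * M ^ 3 := by ring
  have hup3 : |1024 * D ^ 2| * 100 ≤ M ^ 3 := by
    rw [abs_of_nonneg (by positivity)]
    have h1 : (320 * |D|) ^ 2 ≤ M ^ 2 := by gcongr
    rw [mul_pow, sq_abs] at h1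
    have h2 : M ^ 2 ≤ M ^ 3 := pow_le_pow_right₀ (by linarith) (by norm_num)
    linarith
  have htri : |E * E'| ≤ |a ^ 5 * (25 * X - N ^ 2)| +
      |a * D * (320 * X ^ 2 + 2624 * N ^ 2 * X + 1664 * N ^ 4)| + |1024 * D ^ 2| := by
    rw [hid]
    exact (abs_add_le _ _).trans (by gcongr; exact abs_add_le _ _)
  have hM3 : 0 < M ^ 3 := by positivity
  have hDM3 : 320 * |D| < M ^ 3 := by linarith
  linarith

/-- perfect squares -/
theorem square_case (s y : ℤ) (hs : 1 ≤ s) (hne : y ^ 2 ≠ (s ^ 2) ^ 3) :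
    s ^ 2 ≤ |(s ^ 2) ^ 3 - y ^ 2| := by
  have h1 : (s ^ 2) ^ 3 - y ^ 2 = (s ^ 3 - |y|) * (s ^ 3 + |y|) := by
    have : y ^ 2 = |y| ^ 2 := (sq_abs y).symm
    rw [this]; ring
  have h2 : s ^ 3 - |y| ≠ 0 := by
    intro h
    apply hne
    have h3 : |y| = s ^ 3 := by linarith
    rw [← sq_abs, h3]; ring
  have h3 : 1 ≤ abs (s ^ 3 - abs y) := Int.one_le_abs h2
  have h4 : s ^ 2 ≤ s ^ 3 := pow_le_pow_right₀ hs (by norm_num)
  have h5 : 0 ≤ |y| := abs_nonneg y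
  rw [h1, abs_mul, abs_of_nonneg (by positivity : 0 ≤ s ^ 3 + |y|)]
  nlinarith

theorem near_square (x y N v : ℤ) (hx : 1 ≤ x) (hN : 1 ≤ N) (hv : 1 ≤ v)
    (hnear : 2 * |v ^ 2 * x - N ^ 2| ^ 5 ≤ N ^ 4) (hne : y ^ 2 ≠ x ^ 3) :
    x ≤ 400 * v ^ 4 * max 1 |v ^ 2 * x - N ^ 2| * |x ^ 3 - y ^ 2| := by
  have hd0 : x ^ 3 - y ^ 2 ≠ 0 := sub_ne_zero.mpr (Ne.symm hne)
  have hd1 : 1 ≤ |x ^ 3 - y ^ 2| := Int.one_le_abs hd0
  have hv4 : 1 ≤ v ^ 4 := one_le_pow₀ hv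
  by_cases ha : v ^ 2 * x - N ^ 2 = 0
  · rw [ha, abs_zero, max_eq_left (by norm_num), mul_one]
    have h1 : v ^ 2 ∣ N ^ 2 := ⟨x, by linarith⟩
    rw [Int.pow_dvd_pow_iff (by norm_num)] at h1
    obtain ⟨s, hs⟩ := h1
    have hs1 : 1 ≤ s := by
      by_contra h
      push Not at h
      nlinarith
    have hxs : x = s ^ 2 := by
      have h2 : v ^ 2 * x = v ^ 2 * s ^ 2 := by
        rw [hs] at ha
        linarith [ha, mul_pow v s 2]
      exact mul_left_cancel₀ (by positivity) h2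
    subst hxs
    have h3 := square_case s y hs1 hne
    have h4 : |(s ^ 2) ^ 3 - y ^ 2| ≤ 400 * v ^ 4 * |(s ^ 2) ^ 3 - y ^ 2| := by
      nlinarith
    exact h3.trans h4
  · have h1 := core (v ^ 2 * x) (v ^ 3 * |y|) N hN (by nlinarith [one_le_pow₀ hv (n := 2)]) (by positivity) ha hnear (by
      intro h
      apply hne
      have h2 : v ^ 6 * |y| ^ 2 = v ^ 6 * x ^ 3 := by linarith [h, mul_pow (v ^ 3) |y| 2, mul_pow (v ^ 2) x 3, (by ring : (v ^ 3) ^ 2 = v ^ 6), (by ring : (v ^ 2) ^ 3 = v ^ 6)]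
      rw [sq_abs] at h2
      exact mul_left_cancel₀ (by positivity) h2)
    have h2 : (v ^ 3 * |y|) ^ 2 - (v ^ 2 * x) ^ 3 = v ^ 6 * (y ^ 2 - x ^ 3) := by
      rw [mul_pow, sq_abs]; ring
    rw [h2, abs_mul, abs_of_nonneg (by positivity : 0 ≤ v ^ 6), abs_sub_comm (y ^ 2)] at h1
    have h3 : v ^ 2 * x ≤ v ^ 2 * (400 * v ^ 4 * |v ^ 2 * x - N ^ 2| * |x ^ 3 - y ^ 2|) := by
      calc v ^ 2 * x ≤ _ := h1
        _ = _ := by ring
    have h4 := le_of_mul_le_mul_left h3 (by positivity)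
    refine h4.trans ?_
    gcongr
    exact le_max_right _ _

end Pool.Agent.Helper9.Hall
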