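import Mathlib
import Pool.Agent.Helper9.HallCore

set_option autoImplicit false

namespace Pool.Agent.Helper9.HallNearSquare

/-- Hall type inequality for all `x` whose square root is close to a rational number of small
denominator: `x ≤ 400 v ^ 4 max (1, |v ^ 2 x - N ^ 2|) |x ^ 3 - y ^ 2|`. -/
theorem result (x y N v : ℤ) (hx : 1 ≤ x) (hN : 1 ≤ N) (hv : 1 ≤ v)
    (hnear : 2 * |v ^ 2 * x - N ^ 2| ^ 5 ≤ N ^ 4) (hne : y ^ 2 ≠ x ^ 3) :
    x ≤ 400 * v ^ 4 * max 1 |v ^ 2 * x - N ^ 2| * |x ^ 3 - y ^ 2| :=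
  Helper9.Hall.near_square x y N v hx hN hv hnear hne

end Pool.Agent.Helper9.HallNearSquare
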