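import Mathlib
import Pool.Agent.Helper9.HallCore

set_option autoImplicit false

namespace Pool.Agent.Helper9.Hall.Pair

open Pool.Agent.Helper9.Hall

theorem pair_identity (x1 x2 y1 y2 : ℤ) :
    (9 * (x1 - x2) ^ 2 * (x1 + x2) - 8 * (y1 - y2) ^ 2) *
      (9 * (x1 - x2) ^ 2 * (x1 + x2) - 8 * (y1 + y2) ^ 2) =
    (x1 - x2) ^ 4 * (x1 ^ 2 - 14 * x1 * x2 + x2 ^ 2)
      - 16 * (9 * (x1 - x2) ^ 2 * (x1 + x2)) * ((y1 ^ 2 - x1 ^ 3) + (y2 ^ 2 - x2 ^ 3))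
      + 128 * ((x1 - x2) * (x1 ^ 2 + x1 * x2 + x2 ^ 2)) * ((y1 ^ 2 - x1 ^ 3) - (y2 ^ 2 - x2 ^ 3))
      + 64 * ((y1 ^ 2 - x1 ^ 3) - (y2 ^ 2 - x2 ^ 3)) ^ 2 := by
  ring

/-- the case in which the auxiliary form vanishes -/
theorem degenerate (x1 x2 y1 y2 : ℤ) (hx1 : 401 ≤ x1) (hy1 : 0 ≤ y1)
    (hk : x1 - x2 ≠ 0) (hk4 : (x1 - x2) ^ 4 ≤ x1) (h100 : 100 * |x1 - x2| ≤ x1)
    (hd : y1 ^ 2 ≠ x1 ^ 3)
    (hE : 9 * (x1 - x2) ^ 2 * (x1 + x2) - 8 * (y1 - y2) ^ 2 = 0) :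
    x1 ≤ 400 * (|x1 - x2| * |y1 ^ 2 - x1 ^ 3|) := by
  have h1 : (4 * (y1 - y2)) ^ 2 = (3 * (x1 - x2)) ^ 2 * (2 * (x1 + x2)) := by
    linear_combination (-2) * hE
  have h2 : (3 * (x1 - x2)) ^ 2 ∣ (4 * (y1 - y2)) ^ 2 := ⟨_, h1⟩
  rw [Int.pow_dvd_pow_iff (by norm_num)] at h2
  obtain ⟨z, hz⟩ := h2
  rw [hz] at h1
  have h3 : z ^ 2 = 2 * (x1 + x2) := by
    have h4 : (3 * (x1 - x2)) ^ 2 ≠ 0 := pow_ne_zero 2 (by simpa using hk)
    have h5 : (3 * (x1 - x2)) ^ 2 * z ^ 2 = (3 * (x1 - x2)) ^ 2 * (2 * (x1 + x2)) := by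
      rw [← h1]; ring
    exact mul_left_cancel₀ h4 h5
  have h4 : Even z := by
    have : Even (z ^ 2) := by rw [h3]; exact even_two_mul _
    exact (Int.even_pow' (by norm_num)).mp this
  obtain ⟨l, hl⟩ := h4
  have h5 : x1 + x2 = 2 * |l| ^ 2 := by
    rw [sq_abs]
    rw [hl] at h3
    nlinarith
  have habs := abs_le.mp (le_refl |x1 - x2|)
  have hl0 : l ≠ 0 := by
    rintro rfl
    simp at h5
    omega
  have hl1 : 1 ≤ |l| := Int.one_le_abs hl0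
  have h6 : 2 * (x1 - |l| ^ 2) = x1 - x2 := by linarith
  have h7 : x1 - |l| ^ 2 ≠ 0 := by
    intro h
    rw [h] at h6
    exact hk (by linarith)
  have h8 : 2 * |x1 - |l| ^ 2| = |x1 - x2| := by
    rw [← h6, abs_mul]; norm_num
  have h9 : 2 * |x1 - |l| ^ 2| ^ 5 ≤ |l| ^ 4 := by
    have h10 : |x1 - |l| ^ 2| ^ 4 * 16 ≤ x1 := by
      have : (2 * |x1 - |l| ^ 2|) ^ 4 ≤ x1 := by
        rw [h8, ← abs_pow, abs_of_nonneg (by positivity)]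
        exact hk4
      linarith [mul_pow 2 (|x1 - |l| ^ 2|) 4]
    have h11 : 200 * |x1 - |l| ^ 2| ≤ x1 := by linarith
    have h12 : x1 ≤ 2 * |l| ^ 2 := by
      have := abs_le.mp (le_refl |x1 - |l| ^ 2|)
      linarith [this.2]
    have h13 : x1 * x1 ≤ (2 * |l| ^ 2) * (2 * |l| ^ 2) := by gcongr
    have h14 : |x1 - |l| ^ 2| ^ 5 * (16 * 200) ≤ x1 * x1 := by
      calc |x1 - |l| ^ 2| ^ 5 * (16 * 200) = (|x1 - |l| ^ 2| ^ 4 * 16) * (200 * |x1 - |l| ^ 2|) := by ring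
        _ ≤ x1 * x1 := by gcongr
    have h15 : 0 ≤ |x1 - |l| ^ 2| ^ 5 := by positivity
    nlinarith
  have h10 := core x1 y1 |l| hl1 (by linarith) hy1 h7 h9 hd
  refine h10.trans ?_
  have h11 : |x1 - |l| ^ 2| ≤ |x1 - x2| := by
    rw [← h8]
    linarith [abs_nonneg (x1 - |l| ^ 2)]
  gcongr

theorem main (x1 x2 y1 y2 : ℤ) (hx1 : 1 ≤ x1) (hy1 : 0 ≤ y1) (hy2 : 0 ≤ y2)
    (hk : x1 - x2 ≠ 0) (hk4 : (x1 - x2) ^ 4 ≤ x1)
    (hd1 : y1 ^ 2 ≠ x1 ^ 3) :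
    x1 ≤ 400 * (|x1 - x2| * max |y1 ^ 2 - x1 ^ 3| |y2 ^ 2 - x2 ^ 3|) := by
  by_contra hcon
  push Not at hcon
  obtain ⟨d1, hd1'⟩ : ∃ d, d = y1 ^ 2 - x1 ^ 3 := ⟨_, rfl⟩
  obtain ⟨d2, hd2'⟩ : ∃ d, d = y2 ^ 2 - x2 ^ 3 := ⟨_, rfl⟩
  obtain ⟨k, hk'⟩ : ∃ k, k = x1 - x2 := ⟨_, rfl⟩
  have hd10 : d1 ≠ 0 := by rw [hd1']; exact sub_ne_zero.mpr hd1
  have hd11 : 1 ≤ |d1| := Int.one_le_abs hd10
  have hk1 : 1 ≤ |k| := by rw [hk']; exact Int.one_le_abs hk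
  rw [← hd1', ← hd2', ← hk'] at hcon
  rw [← hk'] at hk4
  have hm1 : |d1| ≤ max |d1| |d2| := le_max_left _ _
  have hm2 : |d2| ≤ max |d1| |d2| := le_max_right _ _
  obtain ⟨m, hm⟩ : ∃ m, m = max |d1| |d2| := ⟨_, rfl⟩
  rw [← hm] at hm1 hm2 hcon
  have hm0 : 1 ≤ m := by linarith
  have hx401 : 401 ≤ x1 := by nlinarith
  have h100 : 100 * |k| ≤ x1 := by
    rcases le_or_gt |k| 4 with h | h
    · linarith
    · have h1 : |k| ^ 4 ≤ x1 := by rw [← abs_pow, abs_of_nonneg (by positivity)]; exact hk4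
      have h2 : 5 ^ 3 ≤ |k| ^ 3 := by gcongr; omega
      nlinarith
  by_cases hE : 9 * (x1 - x2) ^ 2 * (x1 + x2) - 8 * (y1 - y2) ^ 2 = 0
  · have h1 := degenerate x1 x2 y1 y2 hx401 hy1 hk (by rw [← hk']; exact hk4)
      (by rw [← hk']; exact h100) hd1 hE
    rw [← hd1', ← hk'] at h1
    have h2 : |k| * |d1| ≤ |k| * m := by gcongr
    linarith
  · have hE1 := Int.one_le_abs hE
    have hid := pair_identity x1 x2 y1 y2
    rw [← hd1', ← hd2', ← hk'] at hid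
    rw [← hk'] at hE1
    have hx2 : x2 = x1 - k := by rw [hk']; ring
    have hka := abs_le.mp (le_refl |k|)
    have hlo : 99 * x1 ≤ 100 * x2 := by rw [hx2]; linarith [hka.2]
    have hhi : 100 * x2 ≤ 101 * x1 := by rw [hx2]; linarith [hka.1]
    have hx0 : 0 < x1 := by linarith
    have hx20 : 0 < x2 := by linarith
    have hk2 : |k| ^ 2 = k ^ 2 := sq_abs k
    have hk2x : k ^ 2 ≤ x1 := by
      have h1 : 1 ≤ k ^ 2 := by rw [← hk2]; exact one_le_pow₀ hk1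
      nlinarith
    have hm400 : 400 * m < x1 := by nlinarith
    obtain ⟨U, hU⟩ : ∃ U, U = x1 ^ 3 := ⟨_, rfl⟩
    have hU0 : 0 < U := by rw [hU]; positivity
    have hx2U : 401 * x1 ^ 2 ≤ U := by
      rw [hU, pow_succ x1 2, mul_comm]
      gcongr
    have hxU : 401 * x1 ≤ U := by
      have : x1 ≤ x1 ^ 2 := le_self_pow₀ (by linarith) (by norm_num)
      linarith
    -- term 1
    have t1 : 100 * |k ^ 4 * (x1 ^ 2 - 14 * x1 * x2 + x2 ^ 2)| ≤ 1212 * U := by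
      have h1 : |x1 ^ 2 - 14 * x1 * x2 + x2 ^ 2| ≤ 12 * (x1 * x2) := by
        have a1 : x1 * (99 * x1) ≤ x1 * (100 * x2) := by gcongr
        have a2 : x2 * (100 * x2) ≤ x2 * (101 * x1) := by gcongr
        have a3 : 0 < x1 * x2 := mul_pos hx0 hx20
        have a4 := sq_nonneg (x1 - x2)
        rw [abs_le]
        constructor
        · linarith
        · linarith
      rw [abs_mul, abs_of_nonneg (by positivity : 0 ≤ k ^ 4)]
      calc 100 * (k ^ 4 * |x1 ^ 2 - 14 * x1 * x2 + x2 ^ 2|) ≤ 100 * (x1 * (12 * (x1 * x2))) := by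
            gcongr
        _ = 12 * x1 ^ 2 * (100 * x2) := by ring
        _ ≤ 12 * x1 ^ 2 * (101 * x1) := by gcongr
        _ = 1212 * U := by rw [hU]; ring
    -- term 2
    have hsum : |d1 + d2| ≤ 2 * m := (abs_add_le _ _).trans (by linarith)
    have hdif : |d1 - d2| ≤ 2 * m := (abs_sub _ _).trans (by linarith)
    have t2 : 4000000 * |16 * (9 * k ^ 2 * (x1 + x2)) * (d1 + d2)| ≤ 57888 * U := by
      rw [abs_mul, abs_of_nonneg (by positivity : 0 ≤ 16 * (9 * k ^ 2 * (x1 + x2)))]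
      calc 4000000 * (16 * (9 * k ^ 2 * (x1 + x2)) * |d1 + d2|) ≤
          4000000 * (16 * (9 * k ^ 2 * (x1 + x2)) * (2 * m)) := by gcongr
        _ = 288 * (100 * |k|) * (400 * (|k| * m)) * (100 * x1 + 100 * x2) := by
            rw [← hk2]; ring
        _ ≤ 288 * x1 * x1 * (100 * x1 + 101 * x1) := by gcongr
        _ = 57888 * U := by rw [hU]; ring
    -- term 3
    have t3 : 4000000 * |128 * (k * (x1 ^ 2 + x1 * x2 + x2 ^ 2)) * (d1 - d2)| ≤ 7757056 * U := by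
      have h1 : |128 * (k * (x1 ^ 2 + x1 * x2 + x2 ^ 2)) * (d1 - d2)| =
          128 * |k| * (x1 ^ 2 + x1 * x2 + x2 ^ 2) * |d1 - d2| := by
        rw [abs_mul, abs_mul, abs_mul k, abs_of_nonneg (by positivity : 0 ≤ x1 ^ 2 + x1 * x2 + x2 ^ 2),
          abs_of_nonneg (by norm_num : (0 : ℤ) ≤ 128)]
        ring
      rw [h1]
      have h2 : 10000 * (x1 ^ 2 + x1 * x2 + x2 ^ 2) ≤ 30301 * x1 ^ 2 := by
        have h3 : (100 * x2) ^ 2 ≤ (101 * x1) ^ 2 := by gcongr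
        have h4 : x1 * (100 * x2) ≤ x1 * (101 * x1) := by gcongr
        linarith
      calc 4000000 * (128 * |k| * (x1 ^ 2 + x1 * x2 + x2 ^ 2) * |d1 - d2|) ≤
          4000000 * (128 * |k| * (x1 ^ 2 + x1 * x2 + x2 ^ 2) * (2 * m)) := by gcongr
        _ = 256 * (10000 * (x1 ^ 2 + x1 * x2 + x2 ^ 2)) * (400 * (|k| * m)) := by ring
        _ ≤ 256 * (30301 * x1 ^ 2) * x1 := by gcongr
        _ = 7757056 * U := by rw [hU]; ring
    -- term 4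
    have t4 : 625 * |64 * (d1 - d2) ^ 2| ≤ U := by
      rw [abs_of_nonneg (by positivity)]
      have h1 : |d1 - d2| ^ 2 ≤ (2 * m) ^ 2 := by gcongr
      rw [sq_abs] at h1
      have h2 : (400 * m) ^ 2 ≤ x1 ^ 2 := by gcongr
      have h3 : x1 ^ 2 ≤ U := by linarith [sq_nonneg x1]
      linarith [mul_pow 400 m 2, mul_pow 2 m 2]
    -- lower bound
    have hA : 40100 * (9 * k ^ 2 * (x1 + x2)) ≤ 1809 * U := by
      calc 40100 * (9 * k ^ 2 * (x1 + x2)) = 9 * 401 * (k ^ 2 * (100 * x1 + 100 * x2)) := by ring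
        _ ≤ 9 * 401 * (x1 * (100 * x1 + 101 * x1)) := by gcongr
        _ = 1809 * (401 * x1 ^ 2) := by ring
        _ ≤ 1809 * U := by gcongr
    have hyy : x1 ^ 3 + x2 ^ 3 + d1 + d2 ≤ (y1 + y2) ^ 2 := by
      rw [hd1', hd2']
      have h1 := mul_nonneg hy1 hy2
      linarith [add_sq y1 y2]
    have hx23 : 970299 * U ≤ 1000000 * x2 ^ 3 := by
      have : (99 * x1) ^ 3 ≤ (100 * x2) ^ 3 := by gcongr
      rw [hU]
      linarith [mul_pow 99 x1 3, mul_pow 100 x2 3]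
    have hds : -(2 * m) ≤ d1 + d2 := (abs_le.mp hsum).1
    have hlow : 15 * U ≤ |9 * k ^ 2 * (x1 + x2) - 8 * (y1 + y2) ^ 2| := by
      have h1 : 15 * U ≤ -(9 * k ^ 2 * (x1 + x2) - 8 * (y1 + y2) ^ 2) := by linarith
      exact h1.trans (neg_le_abs _)
    have hprod : |9 * k ^ 2 * (x1 + x2) - 8 * (y1 + y2) ^ 2| ≤
        |(9 * k ^ 2 * (x1 + x2) - 8 * (y1 - y2) ^ 2) *
          (9 * k ^ 2 * (x1 + x2) - 8 * (y1 + y2) ^ 2)| := by
      rw [abs_mul]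
      exact le_mul_of_one_le_left (abs_nonneg _) hE1
    rw [hid] at hprod
    have htri : |k ^ 4 * (x1 ^ 2 - 14 * x1 * x2 + x2 ^ 2)
        - 16 * (9 * k ^ 2 * (x1 + x2)) * (d1 + d2)
        + 128 * (k * (x1 ^ 2 + x1 * x2 + x2 ^ 2)) * (d1 - d2) + 64 * (d1 - d2) ^ 2| ≤
        |k ^ 4 * (x1 ^ 2 - 14 * x1 * x2 + x2 ^ 2)| + |16 * (9 * k ^ 2 * (x1 + x2)) * (d1 + d2)| +
        |128 * (k * (x1 ^ 2 + x1 * x2 + x2 ^ 2)) * (d1 - d2)| + |64 * (d1 - d2) ^ 2| := by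
      refine (abs_add_le _ _).trans ?_
      gcongr
      refine (abs_add_le _ _).trans ?_
      gcongr
      exact abs_sub _ _
    linarith

theorem repulsion (x1 x2 y1 y2 : ℤ) (hx1 : 1 ≤ x1) (hk : x1 ≠ x2) (hk4 : (x1 - x2) ^ 4 ≤ x1)
    (hd1 : y1 ^ 2 ≠ x1 ^ 3) :
    x1 ≤ 400 * |x1 - x2| * max |x1 ^ 3 - y1 ^ 2| |x2 ^ 3 - y2 ^ 2| := by
  have h1 := main x1 x2 |y1| |y2| hx1 (abs_nonneg _) (abs_nonneg _) (sub_ne_zero.mpr hk) hk4
    (by rw [sq_abs]; exact hd1)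
  rw [sq_abs, sq_abs, abs_sub_comm (y1 ^ 2), abs_sub_comm (y2 ^ 2)] at h1
  rw [mul_assoc]
  exact h1

end Pool.Agent.Helper9.Hall.Pair
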