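import Mathlib
import Pool.Agent.Helper9.HallPair

set_option autoImplicit false

namespace Pool.Agent.Results.MP_9d7cd1_nt.Repulsion

/-- Repulsion of integral points close to the cuspidal cubic: if `x1 ≠ x2` and
`(x1 - x2) ^ 4 ≤ x1`, then the larger of `|x1 ^ 3 - y1 ^ 2|`, `|x2 ^ 3 - y2 ^ 2|` is at least
`x1 / (400 |x1 - x2|)`. -/
theorem result (x1 x2 y1 y2 : ℤ) (hx1 : 1 ≤ x1) (hk : x1 ≠ x2) (hk4 : (x1 - x2) ^ 4 ≤ x1)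
    (hd1 : y1 ^ 2 ≠ x1 ^ 3) :
    x1 ≤ 400 * |x1 - x2| * max |x1 ^ 3 - y1 ^ 2| |x2 ^ 3 - y2 ^ 2| :=
  Helper9.Hall.Pair.repulsion x1 x2 y1 y2 hx1 hk hk4 hd1

end Pool.Agent.Results.MP_9d7cd1_nt.Repulsion
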